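import Mathlib

/-!
# The free-difference-quotient heat semigroup: definitions

Let `(N, τ)` be a von Neumann algebra with a faithful normal tracial state, generated by self-adjoint
elements `x_1, …, x_m`.  We work with `N` in standard form on `H = L²(N, τ)`, with trace vector `Ω`.
This file defines the free difference quotients `∂_i`, finite free Fisher information, the operator
`Δ = ∑_i ∂̄_i^* ∂̄_i` and the heat semigroup `exp(-tΔ)`.
-/

open scoped TensorProduct InnerProductSpace Topology Polynomial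
open Filter

namespace Pool.Agent.FreeHeat

universe u

/-! ## Definitions used in the statement -/

section Statement

/-- Noncommutative polynomials `ℂ⟨X_1, …, X_m⟩` (the free algebra on `Fin m`). -/
abbrev NCPoly (m : ℕ) : Type := FreeAlgebra ℂ (Fin m)

/-- The algebra homomorphism `P ↦ (P ⊗ 1, ∂_i P; 0, 1 ⊗ P)` from `ℂ⟨X⟩` into the `2 × 2` matrices
over the algebra `ℂ⟨X⟩ ⊗ ℂ⟨X⟩`, determined by `X_j ↦ (X_j ⊗ 1, δ_{ij} 1 ⊗ 1; 0, 1 ⊗ X_j)`. -/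
noncomputable def fdqHom {m : ℕ} (i : Fin m) :
    NCPoly m →ₐ[ℂ] Matrix (Fin 2) (Fin 2) (NCPoly m ⊗[ℂ] NCPoly m) :=
  FreeAlgebra.lift ℂ fun j =>
    !![FreeAlgebra.ι ℂ j ⊗ₜ[ℂ] 1, if i = j then 1 ⊗ₜ[ℂ] 1 else 0; 0, 1 ⊗ₜ[ℂ] FreeAlgebra.ι ℂ j]

/-- The free difference quotient `∂_i : ℂ⟨X⟩ → ℂ⟨X⟩ ⊗ ℂ⟨X⟩`, the upper right entry of `fdqHom i`.
It is the derivation with `∂_i X_j = δ_{ij} 1 ⊗ 1` (see `fdq_ι` and the Leibniz rule `fdq_mul`). -/
noncomputable def fdq {m : ℕ} (i : Fin m) : NCPoly m →ₗ[ℂ] NCPoly m ⊗[ℂ] NCPoly m :=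
  (Matrix.entryLinearMap ℂ (NCPoly m ⊗[ℂ] NCPoly m) (0 : Fin 2) (1 : Fin 2))
    ∘ₗ (fdqHom i).toLinearMap

variable {H : Type u} [NormedAddCommGroup H] [InnerProductSpace ℂ H] [CompleteSpace H]

/-- `N ⊆ B(H)` is a von Neumann algebra in standard form with trace vector `Ω`: `Ω` is a unit vector,
the vector state `τ(y) = ⟪Ω, y Ω⟫` is tracial on `N`, and `NΩ` is dense in `H`.  Then `τ` is a
faithful normal tracial state on `N`, and `H` is `L²(N, τ)` through `y ↦ yΩ`; in particular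
`‖y‖₂ = ‖yΩ‖`.  By the GNS construction every von Neumann algebra with a faithful normal tracial
state is of this form. -/
structure IsStandardForm (N : VonNeumannAlgebra H) (Ω : H) : Prop where
  norm_one : ‖Ω‖ = 1
  tracial : ∀ a ∈ N, ∀ b ∈ N, ⟪Ω, (a * b) Ω⟫_ℂ = ⟪Ω, (b * a) Ω⟫_ℂ
  cyclic : Dense ((fun y : H →L[ℂ] H => y Ω) '' (N : Set (H →L[ℂ] H)))

/-- Evaluation `P ↦ P(x_1, …, x_m)` of noncommutative polynomials. -/
noncomputable def ev {m : ℕ} (x : Fin m → H →L[ℂ] H) : NCPoly m →ₐ[ℂ] (H →L[ℂ] H) :=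
  FreeAlgebra.lift ℂ x

/-- The element `P(x)` of `N`, seen as the vector `P(x)Ω` of `H = L²(N)`. -/
noncomputable def vec {m : ℕ} (x : Fin m → H →L[ℂ] H) (Ω : H) : NCPoly m →ₗ[ℂ] H :=
  (ContinuousLinearMap.apply ℂ H Ω).toLinearMap ∘ₗ (ev x).toLinearMap

/-- `∂_i P(x)`, seen as a vector of the algebraic tensor product `L²(N) ⊗ L²(N)`: the image of
`∂_i P` under `A ⊗ B ↦ A(x)Ω ⊗ B(x)Ω`. -/
noncomputable def dvec₀ {m : ℕ} (x : Fin m → H →L[ℂ] H) (Ω : H) (i : Fin m) :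
    NCPoly m →ₗ[ℂ] H ⊗[ℂ] H :=
  TensorProduct.map (vec x Ω) (vec x Ω) ∘ₗ fdq i

/-- `∂_i P(x)` as a vector of the Hilbert space tensor product `L²(N) ⊗̄ L²(N)`, which is the
completion of the inner product space `H ⊗ H`. -/
noncomputable def dvec {m : ℕ} (x : Fin m → H →L[ℂ] H) (Ω : H) (i : Fin m) (P : NCPoly m) :
    UniformSpace.Completion (H ⊗[ℂ] H) :=
  ((dvec₀ x Ω i P : H ⊗[ℂ] H) : UniformSpace.Completion (H ⊗[ℂ] H))

/-- `(ξ, ζ)` is in the graph of the closure `∂̄_i` of the operator `P(x) ↦ ∂_i P(x)`,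
that is, `ξ ∈ D(∂̄_i)` and `∂̄_i ξ = ζ`. -/
def GraphClosure {m : ℕ} (x : Fin m → H →L[ℂ] H) (Ω : H) (i : Fin m) (ξ : H)
    (ζ : UniformSpace.Completion (H ⊗[ℂ] H)) : Prop :=
  (ξ, ζ) ∈ closure (Set.range fun P : NCPoly m => (vec x Ω P, dvec x Ω i P))

/-- `(ζ, η)` is in the graph of the adjoint `∂_i^*` (which is also the adjoint of `∂̄_i`),
that is, `ζ ∈ D(∂_i^*)` and `∂_i^* ζ = η`. -/
def GraphAdjoint {m : ℕ} (x : Fin m → H →L[ℂ] H) (Ω : H) (i : Fin m)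
    (ζ : UniformSpace.Completion (H ⊗[ℂ] H)) (η : H) : Prop :=
  ∀ P : NCPoly m, ⟪dvec x Ω i P, ζ⟫_ℂ = ⟪vec x Ω P, η⟫_ℂ

/-- Finite free Fisher information: `1 ⊗ 1 ∈ D(∂_i^*)` for every `i`, that is, the conjugate
variables `J(x_i) = ∂_i^*(1 ⊗ 1) ∈ L²(N)` exist. -/
def FiniteFreeFisher {m : ℕ} (x : Fin m → H →L[ℂ] H) (Ω : H) : Prop :=
  ∀ i, ∃ J : H, GraphAdjoint x Ω i
    ((Ω ⊗ₜ[ℂ] Ω : H ⊗[ℂ] H) : UniformSpace.Completion (H ⊗[ℂ] H)) J

/-- `(ξ, η)` is in the graph of `Δ = ∑_i ∂̄_i^* ∂̄_i`, that is, `ξ ∈ D(Δ)` and `Δ ξ = η`. -/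
def GraphLaplacian {m : ℕ} (x : Fin m → H →L[ℂ] H) (Ω : H) (ξ η : H) : Prop :=
  ∃ (ζ : Fin m → UniformSpace.Completion (H ⊗[ℂ] H)) (w : Fin m → H),
    (∀ i, GraphClosure x Ω i ξ (ζ i)) ∧ (∀ i, GraphAdjoint x Ω i (ζ i) (w i)) ∧ η = ∑ i, w i

/-- `φ` is a strongly continuous one-parameter semigroup of self-adjoint operators on `L²(N)` whose
generator agrees with `-Δ` on the polynomials `P(x)`, where `Δ = ∑_i ∂̄_i^* ∂̄_i`.  The semigroup
`φ_t = exp(-tΔ)` has this property; this is true for every self-adjoint extension of `Δ` restricted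
to the polynomials (so it does not matter whether the sum defining `Δ` is read as an operator sum or
as a form sum). -/
structure IsHeatSemigroup {m : ℕ} (x : Fin m → H →L[ℂ] H) (Ω : H) (φ : ℝ → H →L[ℂ] H) :
    Prop where
  zero : φ 0 = 1
  add : ∀ s t, 0 ≤ s → 0 ≤ t → φ (s + t) = φ s * φ t
  selfAdjoint : ∀ t, 0 ≤ t → IsSelfAdjoint (φ t)
  continuous : ∀ ξ, Tendsto (fun t => φ t ξ) (𝓝[>] 0) (𝓝 ξ)
  generator : ∀ (P : NCPoly m) (η : H), GraphLaplacian x Ω (vec x Ω P) η →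
    Tendsto (fun t : ℝ => t⁻¹ • (vec x Ω P - φ t (vec x Ω P))) (𝓝[>] 0) (𝓝 η)

end Statement

end Pool.Agent.FreeHeat
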