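import Mathlib

/-!
# The semigroup `exp(-t(R⁻¹ - 1))` attached to a positive contraction `R` with dense range
-/

open scoped InnerProductSpace Topology
open Filter

namespace Pool.Agent.FreeHeat

universe u

/-- `r ↦ exp(-t(1/r - 1))`, extended by `0` to `r ≤ 0`. -/
noncomputable def heatFun (t r : ℝ) : ℝ := if 0 < r then Real.exp (-(t * (1 / r - 1))) else 0

lemma heatFun_nonneg (t r : ℝ) : 0 ≤ heatFun t r := by
  unfold heatFun; split_ifs <;> positivity

lemma heatFun_le_one {t r : ℝ} (ht : 0 ≤ t) (hr : r ≤ 1) : heatFun t r ≤ 1 := by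
  unfold heatFun
  split_ifs with h
  · rw [Real.exp_le_one_iff, neg_nonpos]
    have : 1 ≤ 1 / r := by rw [le_div_iff₀ h]; linarith
    exact mul_nonneg ht (by linarith)
  · exact zero_le_one

lemma heatFun_mul (s t r : ℝ) : heatFun s r * heatFun t r = heatFun (s + t) r := by
  unfold heatFun
  split_ifs with h
  · rw [← Real.exp_add]; congr 1; ring
  · simp

lemma heatFun_le {t r : ℝ} (ht : 0 < t) (hr : 0 < r) :
    heatFun t r ≤ Real.exp t * (r / t) := by
  unfold heatFun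
  rw [if_pos hr]
  have h1 : Real.exp (-(t * (1 / r - 1))) = Real.exp t * Real.exp (-(t / r)) := by
    rw [← Real.exp_add]; congr 1; ring
  rw [h1]
  gcongr
  have h2 : t / r ≤ Real.exp (t / r) := by
    have := Real.add_one_le_exp (t / r); linarith
  rw [Real.exp_neg, inv_le_comm₀ (Real.exp_pos _) (by positivity)]
  rwa [inv_div]

lemma continuous_heatFun {t : ℝ} (ht : 0 < t) : Continuous (heatFun t) := by
  rw [continuous_iff_continuousAt]
  intro r
  rcases lt_trichotomy r 0 with h | h | h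
  · have : heatFun t =ᶠ[𝓝 r] fun _ => 0 := by
      filter_upwards [gt_mem_nhds h] with s hs
      unfold heatFun; rw [if_neg (not_lt.mpr hs.le)]
    exact continuousAt_const.congr this.symm
  · subst h
    have h0 : heatFun t 0 = 0 := by simp [heatFun]
    rw [ContinuousAt, h0]
    refine squeeze_zero_norm (a := fun s => Real.exp t * (|s| / t)) (fun s => ?_) ?_
    · rw [Real.norm_eq_abs, abs_of_nonneg (heatFun_nonneg t s)]
      rcases le_or_gt s 0 with hs | hs
      · have : heatFun t s = 0 := by unfold heatFun; rw [if_neg (not_lt.mpr hs)]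
        rw [this]; positivity
      · rw [abs_of_pos hs]; exact heatFun_le ht hs
    · have : Continuous fun s : ℝ => Real.exp t * (|s| / t) := by fun_prop
      simpa using this.tendsto 0
  · have : heatFun t =ᶠ[𝓝 r] fun s => Real.exp (-(t * (1 / s - 1))) := by
      filter_upwards [lt_mem_nhds h] with s hs
      unfold heatFun; rw [if_pos hs]
    refine ContinuousAt.congr ?_ this.symm
    have : r ≠ 0 := h.ne'
    fun_prop (disch := assumption)

lemma gen_bound {t r : ℝ} (ht : 0 < t) (h0 : 0 ≤ r) (h1 : r ≤ 1) :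
    |t⁻¹ * (r - heatFun t r * r)| ≤ 1 := by
  have hle := heatFun_le_one ht.le h1
  have hnn : 0 ≤ t⁻¹ * (r - heatFun t r * r) := by
    have : 0 ≤ r * (1 - heatFun t r) := mul_nonneg h0 (by linarith)
    have e : r - heatFun t r * r = r * (1 - heatFun t r) := by ring
    rw [e]; positivity
  rw [abs_of_nonneg hnn, inv_mul_le_iff₀ ht, mul_one]
  rcases h0.eq_or_lt with h | h
  · rw [← h]; simp; exact ht.le
  · have h2 : 1 - t * (1 / r - 1) ≤ heatFun t r := by
      unfold heatFun; rw [if_pos h]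
      have := Real.add_one_le_exp (-(t * (1 / r - 1))); linarith
    have h3 : r * (1 - heatFun t r) ≤ r * (t * (1 / r - 1)) := by
      gcongr; linarith
    have h4 : r * (t * (1 / r - 1)) = t * (1 - r) := by field_simp
    nlinarith

lemma gen_approx {t r : ℝ} (ht : 0 < t) (h0 : 0 ≤ r) (h1 : r ≤ 1) :
    |t⁻¹ * (r - heatFun t r * r) * r - (1 - r) * r| ≤ t := by
  rcases h0.eq_or_lt with h | h
  · rw [← h]; simp; exact ht.le
  set a := 1 / r - 1 with ha
  have ha0 : 0 ≤ a := by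
    have : 1 ≤ 1 / r := by rw [le_div_iff₀ h]; linarith
    linarith
  have hra : r * a = 1 - r := by rw [ha]; field_simp
  have h2 : heatFun t r = Real.exp (-(t * a)) := by unfold heatFun; rw [if_pos h]
  -- 0 ≤ ta - (1 - e^{-ta}) ≤ (ta)^2
  have h3 : 0 ≤ t * a - (1 - Real.exp (-(t * a))) := by
    have := Real.add_one_le_exp (-(t * a)); linarith
  have h4 : t * a - (1 - Real.exp (-(t * a))) ≤ (t * a) ^ 2 := by
    have hx : 0 ≤ t * a := by positivity
    have h5 : Real.exp (-(t * a)) ≤ 1 / (1 + t * a) := by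
      rw [Real.exp_neg, inv_eq_one_div]
      apply one_div_le_one_div_of_le (by positivity)
      have := Real.add_one_le_exp (t * a); linarith
    have h6 : 1 / (1 + t * a) ≤ 1 - t * a + (t * a) ^ 2 := by
      rw [div_le_iff₀ (by positivity)]
      nlinarith [pow_nonneg hx 3]
    linarith
  have e : t⁻¹ * (r - heatFun t r * r) * r - (1 - r) * r
      = -(t⁻¹ * r ^ 2 * (t * a - (1 - Real.exp (-(t * a))))) := by
    rw [h2, ← hra]
    field_simp
    ring
  rw [e, abs_neg, abs_of_nonneg (by positivity)]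
  calc t⁻¹ * r ^ 2 * (t * a - (1 - Real.exp (-(t * a)))) ≤ t⁻¹ * r ^ 2 * (t * a) ^ 2 := by gcongr
    _ = t * (r * a) ^ 2 := by field_simp
    _ ≤ t * 1 := by
      rw [hra]
      gcongr
      nlinarith
    _ = t := mul_one t

section Conv

variable {H : Type u} [NormedAddCommGroup H] [NormedSpace ℂ H]

lemma tendsto_of_dense (T : ℝ → H →L[ℂ] H) (T₀ : H →L[ℂ] H) (hT : ∀ t, 0 < t → ‖T t‖ ≤ 1)
    (D : Set H) (hD : Dense D)
    (h : ∀ ξ ∈ D, Tendsto (fun t => T t ξ) (𝓝[>] 0) (𝓝 (T₀ ξ))) (ξ : H) :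
    Tendsto (fun t => T t ξ) (𝓝[>] 0) (𝓝 (T₀ ξ)) := by
  rw [Metric.tendsto_nhds]
  intro ε hε
  obtain ⟨η, hηD, hη⟩ := hD.exists_dist_lt ξ (show 0 < ε / (2 * (2 + ‖T₀‖)) by positivity)
  have h1 := (Metric.tendsto_nhds.mp (h η hηD)) (ε / 2) (by positivity)
  have h2 : ∀ᶠ t : ℝ in 𝓝[>] 0, 0 < t := eventually_mem_nhdsWithin
  filter_upwards [h1, h2] with t ht ht0
  rw [dist_eq_norm] at ht hη ⊢
  have e : T t ξ - T₀ ξ = T t (ξ - η) + (T t η - T₀ η) - T₀ (ξ - η) := by
    rw [map_sub, map_sub]; abel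
  rw [e]
  have h3 : ‖T t (ξ - η)‖ ≤ 1 * ‖ξ - η‖ :=
    ((T t).le_opNorm _).trans (by gcongr; exact hT t ht0)
  have h4 : ‖T₀ (ξ - η)‖ ≤ ‖T₀‖ * ‖ξ - η‖ := T₀.le_opNorm _
  have h5 : (1 + ‖T₀‖) * ‖ξ - η‖ ≤ ε / 2 := by
    have h6 : (2 + ‖T₀‖) * ‖ξ - η‖ ≤ (2 + ‖T₀‖) * (ε / (2 * (2 + ‖T₀‖))) := by gcongr
    have h7 : (2 + ‖T₀‖) * (ε / (2 * (2 + ‖T₀‖))) = ε / 2 := by field_simp
    have := norm_nonneg (ξ - η)
    nlinarith
  calc ‖T t (ξ - η) + (T t η - T₀ η) - T₀ (ξ - η)‖
      ≤ ‖T t (ξ - η)‖ + ‖T t η - T₀ η‖ + ‖T₀ (ξ - η)‖ :=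
        (norm_sub_le _ _).trans (by gcongr; exact norm_add_le _ _)
    _ < ε := by nlinarith

end Conv

section Heat

variable {H : Type u} [NormedAddCommGroup H] [InnerProductSpace ℂ H] [CompleteSpace H]

/-- `exp(-t(R⁻¹ - 1))` for `t > 0` and `1` for `t ≤ 0`. -/
noncomputable def heat (R : H →L[ℂ] H) (t : ℝ) : H →L[ℂ] H :=
  if 0 < t then cfc (heatFun t) R else 1

variable {R : H →L[ℂ] H} (hsa : IsSelfAdjoint R) (hspec : ∀ r ∈ spectrum ℝ R, 0 ≤ r ∧ r ≤ 1)

include hsa in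
lemma heat_add (s t : ℝ) (hs : 0 ≤ s) (ht : 0 ≤ t) : heat R (s + t) = heat R s * heat R t := by
  rcases hs.eq_or_lt with h | h
  · rw [← h, zero_add]; simp [heat]
  rcases ht.eq_or_lt with h' | h'
  · rw [← h', add_zero]; simp [heat]
  rw [heat, heat, heat, if_pos h, if_pos h', if_pos (by positivity),
    ← cfc_mul _ _ R (continuous_heatFun h).continuousOn (continuous_heatFun h').continuousOn]
  congr 1
  funext r
  exact (heatFun_mul s t r).symm

lemma heat_selfAdjoint (t : ℝ) : IsSelfAdjoint (heat R t) := by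
  rw [heat]
  split_ifs
  · exact cfc_predicate _ R
  · exact IsSelfAdjoint.one _

include hspec in
lemma norm_heat_le (t : ℝ) (ht : 0 < t) : ‖heat R t‖ ≤ 1 := by
  rw [heat, if_pos ht]
  refine norm_cfc_le zero_le_one fun r hr => ?_
  rw [Real.norm_eq_abs, abs_of_nonneg (heatFun_nonneg t r)]
  exact heatFun_le_one ht.le (hspec r hr).2

include hsa in
lemma gen_cfc (t : ℝ) (ht : 0 < t) :
    t⁻¹ • (R - heat R t * R) = cfc (fun r => t⁻¹ * (r - heatFun t r * r)) R := by
  have hc := (continuous_heatFun ht)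
  rw [heat, if_pos ht, cfc_const_mul t⁻¹ _ R (by fun_prop),
    cfc_sub (fun r => r) (fun r => heatFun t r * r) R (by fun_prop) (by fun_prop),
    cfc_mul _ _ R (by fun_prop) (by fun_prop), cfc_id' ℝ R hsa]

include hsa hspec in
lemma norm_gen_le (t : ℝ) (ht : 0 < t) : ‖t⁻¹ • (R - heat R t * R)‖ ≤ 1 := by
  rw [gen_cfc hsa t ht]
  refine norm_cfc_le zero_le_one fun r hr => ?_
  rw [Real.norm_eq_abs]
  exact gen_bound ht (hspec r hr).1 (hspec r hr).2

include hsa hspec in
lemma norm_gen_sub_le (t : ℝ) (ht : 0 < t) :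
    ‖(t⁻¹ • (R - heat R t * R)) * R - (1 - R) * R‖ ≤ t := by
  have hc := (continuous_heatFun ht)
  have e1 : (1 - R) * R = cfc (fun r : ℝ => (1 - r) * r) R := by
    rw [cfc_mul _ _ R (by fun_prop) (by fun_prop), cfc_id' ℝ R hsa,
      cfc_sub (fun _ : ℝ => 1) (fun r => r) R (by fun_prop) (by fun_prop), cfc_const_one ℝ R hsa,
      cfc_id' ℝ R hsa]
  have e2 : (t⁻¹ • (R - heat R t * R)) * R
      = cfc (fun r => t⁻¹ * (r - heatFun t r * r) * r) R := by
    rw [gen_cfc hsa t ht, cfc_mul _ (fun r : ℝ => r) R (by fun_prop) (by fun_prop),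
      cfc_id' ℝ R hsa]
  rw [e1, e2, ← cfc_sub _ _ R (by fun_prop) (by fun_prop)]
  refine norm_cfc_le ht.le fun r hr => ?_
  rw [Real.norm_eq_abs]
  exact gen_approx ht (hspec r hr).1 (hspec r hr).2

include hsa hspec in
lemma tendsto_gen (hdense : DenseRange R) (v : H) :
    Tendsto (fun t : ℝ => t⁻¹ • (R v - heat R t (R v))) (𝓝[>] 0) (𝓝 (v - R v)) := by
  have h := tendsto_of_dense (fun t => t⁻¹ • (R - heat R t * R)) (1 - R)
    (fun t ht => norm_gen_le hsa hspec t ht) (Set.range R) hdense (by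
      rintro _ ⟨w, rfl⟩
      rw [tendsto_iff_norm_sub_tendsto_zero]
      have h1 : Tendsto (fun t : ℝ => t * ‖w‖) (𝓝[>] 0) (𝓝 0) := by
        have : Tendsto (fun t : ℝ => t * ‖w‖) (𝓝 0) (𝓝 (0 * ‖w‖)) :=
          (continuous_id.mul continuous_const).tendsto 0
        rw [zero_mul] at this
        exact this.mono_left nhdsWithin_le_nhds
      refine squeeze_zero' (Eventually.of_forall fun t => norm_nonneg _) ?_ h1
      filter_upwards [eventually_mem_nhdsWithin] with t ht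
      have h2 := ((t⁻¹ • (R - heat R t * R)) * R - (1 - R) * R).le_opNorm w
      refine le_trans (le_of_eq ?_) (h2.trans ?_)
      · rfl
      · gcongr
        exact norm_gen_sub_le hsa hspec t ht) v
  refine h.congr fun t => ?_
  rfl

include hsa hspec in
lemma tendsto_heat (hdense : DenseRange R) (v : H) :
    Tendsto (fun t : ℝ => heat R t v) (𝓝[>] 0) (𝓝 v) := by
  refine tendsto_of_dense (fun t => heat R t) 1
    (fun t ht => norm_heat_le hspec t ht) (Set.range R) hdense ?_ v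
  rintro _ ⟨w, rfl⟩
  have h1 := tendsto_gen hsa hspec hdense w
  have h2 : Tendsto (fun t : ℝ => t) (𝓝[>] 0) (𝓝 0) :=
    tendsto_id.mono_left nhdsWithin_le_nhds
  have h3 := h2.smul h1
  rw [zero_smul] at h3
  have h4 : Tendsto (fun t : ℝ => R w - t • t⁻¹ • (R w - heat R t (R w))) (𝓝[>] 0) (𝓝 (R w - 0)) :=
    tendsto_const_nhds.sub h3
  rw [sub_zero] at h4
  refine h4.congr' ?_
  filter_upwards [eventually_mem_nhdsWithin] with t ht
  have ht' : t ≠ 0 := (Set.mem_Ioi.mp ht).ne'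
  rw [smul_smul, mul_inv_cancel₀ ht', one_smul]
  abel

end Heat

end Pool.Agent.FreeHeat
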