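import Pool.Agent.FreeHeat.Proof
import Pool.Agent.FreeHeat.Exist1

/-!
# Existence of the heat semigroup
-/

open scoped TensorProduct InnerProductSpace Topology Polynomial
open Filter

namespace Pool.Agent.FreeHeat

universe u

section Adj

variable {H : Type u} [NormedAddCommGroup H] [InnerProductSpace ℂ H] [CompleteSpace H]

lemma dvec₀_ι_mul_ne {m : ℕ} (x : Fin m → H →L[ℂ] H) (Ω : H) {i j : Fin m} (hij : i ≠ j)
    (Q : NCPoly m) : dvec₀ x Ω i (FreeAlgebra.ι ℂ j * Q)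
      = TensorProduct.map (x j).toLinearMap LinearMap.id (dvec₀ x Ω i Q) := by
  rw [dvec₀, LinearMap.comp_apply, fdq_mul, fdq_ι, if_neg hij, map_add, LinearMap.comp_apply,
    zero_mul, map_zero, add_zero]
  generalize fdq i Q = ζ
  induction ζ using TensorProduct.induction_on with
  | zero => simp
  | tmul p q => simp [vec_mul, ev_ι]
  | add p q hp hq => simp only [map_add, mul_add, hp, hq]

lemma dvec₀_mul_ι_ne {m : ℕ} (x : Fin m → H →L[ℂ] H) (Ω : H) {i j : Fin m} (hij : i ≠ j)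
    (R : H →L[ℂ] H) (hR : ∀ P : NCPoly m, R (vec x Ω P) = vec x Ω (P * FreeAlgebra.ι ℂ j))
    (Q : NCPoly m) : dvec₀ x Ω i (Q * FreeAlgebra.ι ℂ j)
      = TensorProduct.map LinearMap.id R.toLinearMap (dvec₀ x Ω i Q) := by
  rw [dvec₀, LinearMap.comp_apply, fdq_mul, fdq_ι, if_neg hij, map_add, LinearMap.comp_apply,
    mul_zero, map_zero, zero_add]
  generalize fdq i Q = ζ
  induction ζ using TensorProduct.induction_on with
  | zero => simp
  | tmul p q => simp [hR]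
  | add p q hp hq => simp only [map_add, add_mul, hp, hq]

lemma Adj₀.left_ne {m : ℕ} {x : Fin m → H →L[ℂ] H} {Ω : H} {i j : Fin m} (hij : i ≠ j)
    (hx : IsSelfAdjoint (x j)) {a b η : H} (h : Adj₀ x Ω i (a ⊗ₜ b) η) :
    Adj₀ x Ω i ((x j a) ⊗ₜ b) (x j η) := by
  intro Q
  have h1 := h (FreeAlgebra.ι ℂ j * Q)
  rw [dvec₀_ι_mul_ne x Ω hij, inner_map_left _ hx, vec_mul, ev_ι, sa_inner hx] at h1
  exact h1

lemma Adj₀.right_ne {m : ℕ} {x : Fin m → H →L[ℂ] H} {Ω : H} {i j : Fin m} (hij : i ≠ j)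
    {R : H →L[ℂ] H} (hRsa : IsSelfAdjoint R)
    (hR : ∀ P : NCPoly m, R (vec x Ω P) = vec x Ω (P * FreeAlgebra.ι ℂ j))
    {a b η : H} (h : Adj₀ x Ω i (a ⊗ₜ b) η) :
    Adj₀ x Ω i (a ⊗ₜ (R b)) (R η) := by
  intro Q
  have h1 := h (Q * FreeAlgebra.ι ℂ j)
  rw [dvec₀_mul_ι_ne x Ω hij R hR, inner_map_right _ hRsa, ← hR, sa_inner hRsa] at h1
  exact h1

lemma ev_mem {N : VonNeumannAlgebra H} {m : ℕ} {x : Fin m → H →L[ℂ] H} (hxN : ∀ j, x j ∈ N)
    (P : NCPoly m) : ev x P ∈ N := by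
  induction P using FreeAlgebra.induction with
  | grade0 r =>
    rw [AlgHom.commutes]
    exact algebraMap_mem N.toStarSubalgebra r
  | grade1 j => rw [ev_ι]; exact hxN j
  | mul a b ha hb => rw [map_mul]; exact mul_mem ha hb
  | add a b ha hb => rw [map_add]; exact add_mem ha hb

/-- every elementary tensor of polynomials is in the domain of `∂_i^*`. -/
lemma exists_adj₀ {N : VonNeumannAlgebra H} {Ω : H} (hN : IsStandardForm N Ω) {m : ℕ}
    {x : Fin m → H →L[ℂ] H} (hx : ∀ i, IsSelfAdjoint (x i)) (hxN : ∀ j, x j ∈ N) {i : Fin m}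
    {J : H} (hJ : Adj₀ x Ω i (Ω ⊗ₜ Ω) J) (P Q : NCPoly m) :
    ∃ η, Adj₀ x Ω i (vec x Ω P ⊗ₜ vec x Ω Q) η := by
  -- left multiplication
  have hl : ∀ (P : NCPoly m) (a b : H), (∃ η, Adj₀ x Ω i (a ⊗ₜ b) η) →
      ∃ η, Adj₀ x Ω i ((ev x P a) ⊗ₜ b) η := by
    intro P
    induction P using FreeAlgebra.induction with
    | grade0 r =>
      rintro a b ⟨η, hη⟩
      refine ⟨r • η, fun Q => ?_⟩
      have e5 : (ev x (algebraMap ℂ (NCPoly m) r)) a = r • a := by
        rw [AlgHom.commutes, Algebra.algebraMap_eq_smul_one]; rfl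
      rw [e5, ← TensorProduct.smul_tmul', inner_tsmul_right, inner_smul_right, hη Q]
    | grade1 j =>
      rintro a b ⟨η, hη⟩
      rw [ev_ι]
      by_cases hij : i = j
      · subst hij; exact ⟨_, hη.left (hx i)⟩
      · exact ⟨_, hη.left_ne hij (hx j)⟩
    | mul p q hp hq =>
      intro a b h
      rw [map_mul, mul_apply_eq_comp]
      exact hp _ _ (hq _ _ h)
    | add p q hp hq =>
      intro a b h
      obtain ⟨η₁, h₁⟩ := hp a b h
      obtain ⟨η₂, h₂⟩ := hq a b h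
      refine ⟨η₁ + η₂, fun Q => ?_⟩
      rw [map_add, add_apply, TensorProduct.add_tmul, inner_add_right, inner_add_right, h₁ Q, h₂ Q]
  have hr : ∀ (Q : NCPoly m) (a : H) (B : NCPoly m), (∃ η, Adj₀ x Ω i (a ⊗ₜ vec x Ω B) η) →
      ∃ η, Adj₀ x Ω i (a ⊗ₜ vec x Ω (B * Q)) η := by
    intro Q
    induction Q using FreeAlgebra.induction with
    | grade0 r =>
      rintro a B ⟨η, hη⟩
      refine ⟨r • η, fun Q => ?_⟩
      have e5 : vec x Ω (B * algebraMap ℂ (NCPoly m) r) = r • vec x Ω B := by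
        rw [← Algebra.commutes, Algebra.algebraMap_eq_smul_one, smul_mul_assoc, one_mul, map_smul]
      rw [e5, TensorProduct.tmul_smul, inner_tsmul_right, inner_smul_right, hη Q]
    | grade1 j =>
      rintro a B ⟨η, hη⟩
      obtain ⟨R, hR⟩ := hN.exists_right (hxN j)
      have hRR : IsRight N Ω (x j) R := ⟨hxN j, hx j, hR⟩
      have hR' : ∀ P : NCPoly m, R (vec x Ω P) = vec x Ω (P * FreeAlgebra.ι ℂ j) := by
        intro P
        rw [vec_mul, vec_apply, hRR.eq _ (ev_mem hxN P), vec_apply, ev_ι]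
      rw [← hR']
      by_cases hij : i = j
      · subst hij; exact ⟨_, hη.right (hRR.selfAdjoint hN) hR'⟩
      · exact ⟨_, hη.right_ne hij (hRR.selfAdjoint hN) hR'⟩
    | mul p q hp hq =>
      intro a B h
      rw [← mul_assoc]
      exact hq _ _ (hp _ _ h)
    | add p q hp hq =>
      intro a B h
      obtain ⟨η₁, h₁⟩ := hp a B h
      obtain ⟨η₂, h₂⟩ := hq a B h
      refine ⟨η₁ + η₂, fun Q => ?_⟩
      rw [mul_add, map_add, TensorProduct.tmul_add, inner_add_right, inner_add_right, h₁ Q, h₂ Q]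
  have h1 : vec x Ω 1 = Ω := by simp [vec_apply]
  have h2 := hr Q Ω 1 (by rw [h1]; exact ⟨J, hJ⟩)
  rw [one_mul] at h2
  have h3 := hl P Ω _ h2
  rwa [← vec_apply] at h3

/-- every element of the algebraic tensor product of polynomials is in the domain of `∂_i^*`. -/
lemma exists_adj₀_map {N : VonNeumannAlgebra H} {Ω : H} (hN : IsStandardForm N Ω) {m : ℕ}
    {x : Fin m → H →L[ℂ] H} (hx : ∀ i, IsSelfAdjoint (x i)) (hxN : ∀ j, x j ∈ N) {i : Fin m}
    {J : H} (hJ : Adj₀ x Ω i (Ω ⊗ₜ Ω) J) (ζ : NCPoly m ⊗[ℂ] NCPoly m) :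
    ∃ η, Adj₀ x Ω i (TensorProduct.map (vec x Ω) (vec x Ω) ζ) η := by
  induction ζ using TensorProduct.induction_on with
  | zero => exact ⟨0, fun Q => by simp⟩
  | tmul p q => simpa using exists_adj₀ hN hx hxN hJ p q
  | add a b ha hb =>
    obtain ⟨η₁, h₁⟩ := ha
    obtain ⟨η₂, h₂⟩ := hb
    exact ⟨η₁ + η₂, fun Q => by rw [map_add, inner_add_right, inner_add_right, h₁ Q, h₂ Q]⟩

/-- Polynomials are dense in `L²(N)`. -/
lemma dense_vec {N : VonNeumannAlgebra H} {Ω : H} (hN : IsStandardForm N Ω) {m : ℕ}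
    {x : Fin m → H →L[ℂ] H} (hx : ∀ i, IsSelfAdjoint (x i))
    (hNx : (N : Set (H →L[ℂ] H)) = Set.centralizer (Set.centralizer (Set.range x))) :
    Dense (Set.range (vec x Ω)) := by
  set K : Submodule ℂ H := (LinearMap.range (vec x Ω)).topologicalClosure with hK
  have hKcl : IsClosed (K : Set H) := Submodule.isClosed_topologicalClosure _
  have : CompleteSpace K := hKcl.completeSpace_coe
  -- K is invariant under x_j
  have hinv : ∀ j, ∀ ξ ∈ K, x j ξ ∈ K := by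
    intro j ξ hξ
    have hcl : IsClosed {ξ : H | x j ξ ∈ K} := hKcl.preimage (x j).continuous
    refine closure_minimal ?_ hcl hξ
    rintro _ ⟨P, rfl⟩
    refine Submodule.le_topologicalClosure _ ⟨FreeAlgebra.ι ℂ j * P, ?_⟩
    rw [vec_mul, ev_ι]
  -- the projection commutes with x_j
  have hcomm : ∀ j, x j * K.starProjection = K.starProjection * x j := by
    intro j
    ext ξ
    simp only [mul_apply_eq_comp]
    symm
    refine Submodule.eq_starProjection_of_mem_orthogonal (hinv j _ (Submodule.coe_mem _)) ?_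
    rw [← map_sub, Submodule.mem_orthogonal]
    intro w hw
    rw [← sa_inner (hx j)]
    have h1 := K.sub_starProjection_mem_orthogonal ξ
    rw [Submodule.mem_orthogonal] at h1
    exact h1 _ (hinv j w hw)
  have hmem : K.starProjection ∈ Set.centralizer (Set.range x) := by
    rintro _ ⟨j, rfl⟩
    exact hcomm j
  have hΩ : Ω ∈ K := Submodule.le_topologicalClosure _ ⟨1, by simp [vec_apply]⟩
  have hall : ∀ y ∈ N, y Ω ∈ K := by
    intro y hy
    have h1 : y ∈ Set.centralizer (Set.centralizer (Set.range x)) := by rw [← hNx]; exact hy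
    have h2 : K.starProjection * y = y * K.starProjection := h1 _ hmem
    have h3 : K.starProjection Ω = Ω := Submodule.starProjection_eq_self_iff.mpr hΩ
    have h4 : K.starProjection (y Ω) = y Ω := by
      have := congrArg (fun T : H →L[ℂ] H => T Ω) h2
      simp only [mul_apply_eq_comp] at this
      rw [this, h3]
    rw [← h4]; exact Submodule.coe_mem _
  have htop : (K : Set H) = Set.univ := by
    refine Set.eq_univ_of_forall fun ξ => ?_
    refine closure_minimal ?_ hKcl (hN.cyclic ξ)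
    rintro _ ⟨y, hy, rfl⟩
    exact hall y hy
  intro ξ
  have : ξ ∈ (K : Set H) := by rw [htop]; trivial
  exact this

lemma eq_zero_of_inner {N : VonNeumannAlgebra H} {Ω : H} (hN : IsStandardForm N Ω) {m : ℕ}
    {x : Fin m → H →L[ℂ] H} (hx : ∀ i, IsSelfAdjoint (x i))
    (hNx : (N : Set (H →L[ℂ] H)) = Set.centralizer (Set.centralizer (Set.range x)))
    (ζ : UniformSpace.Completion (H ⊗[ℂ] H))
    (h : ∀ P Q : NCPoly m, ⟪ζ, ((vec x Ω P ⊗ₜ[ℂ] vec x Ω Q : H ⊗[ℂ] H) :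
      UniformSpace.Completion (H ⊗[ℂ] H))⟫_ℂ = 0) : ζ = 0 := by
  have hd := dense_vec hN hx hNx
  have hcont : Continuous fun p : H × H => ⟪ζ, ((p.1 ⊗ₜ[ℂ] p.2 : H ⊗[ℂ] H) :
      UniformSpace.Completion (H ⊗[ℂ] H))⟫_ℂ := by
    refine Continuous.inner continuous_const ?_
    exact (UniformSpace.Completion.continuous_coe _).comp TensorProduct.continuous_tmul
  have h1 : ∀ a b : H, ⟪ζ, ((a ⊗ₜ[ℂ] b : H ⊗[ℂ] H) :
      UniformSpace.Completion (H ⊗[ℂ] H))⟫_ℂ = 0 := by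
    have hd2 : Dense (Set.range (vec x Ω) ×ˢ Set.range (vec x Ω)) := hd.prod hd
    have := Continuous.ext_on hd2 hcont continuous_const (by
      rintro ⟨_, _⟩ ⟨⟨P, rfl⟩, ⟨Q, rfl⟩⟩
      exact h P Q)
    intro a b
    exact congrFun this (a, b)
  have h2 : ∀ θ : H ⊗[ℂ] H, ⟪ζ, (θ : UniformSpace.Completion (H ⊗[ℂ] H))⟫_ℂ = 0 := by
    intro θ
    induction θ using TensorProduct.induction_on with
    | zero => rw [UniformSpace.Completion.coe_zero, inner_zero_right]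
    | tmul a b => exact h1 a b
    | add a b ha hb => rw [UniformSpace.Completion.coe_add, inner_add_right, ha, hb, add_zero]
  have h3 : ⟪ζ, ζ⟫_ℂ = 0 := by
    have := Continuous.ext_on (UniformSpace.Completion.denseRange_coe (α := H ⊗[ℂ] H))
      (f := fun θ => ⟪ζ, θ⟫_ℂ) (g := fun _ => 0) (by fun_prop) continuous_const (by
        rintro _ ⟨θ, rfl⟩
        exact h2 θ)
    exact congrFun this ζ
  exact inner_self_eq_zero.mp h3

/-- closability: on polynomials the closure `∂̄_i` agrees with `∂_i`. -/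
lemma GraphClosure.eq {N : VonNeumannAlgebra H} {Ω : H} (hN : IsStandardForm N Ω) {m : ℕ}
    {x : Fin m → H →L[ℂ] H} (hx : ∀ i, IsSelfAdjoint (x i)) (hxN : ∀ j, x j ∈ N)
    (hNx : (N : Set (H →L[ℂ] H)) = Set.centralizer (Set.centralizer (Set.range x)))
    {i : Fin m} {J : H} (hJ : Adj₀ x Ω i (Ω ⊗ₜ Ω) J) {P : NCPoly m}
    {ζ : UniformSpace.Completion (H ⊗[ℂ] H)} (h : GraphClosure x Ω i (vec x Ω P) ζ) :
    ζ = dvec x Ω i P := by
  rw [← sub_eq_zero]
  refine eq_zero_of_inner hN hx hNx _ fun A B => ?_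
  obtain ⟨η, hη⟩ := exists_adj₀ hN hx hxN hJ A B
  have hη' := hη.graphAdjoint
  have hcl : IsClosed {p : H × UniformSpace.Completion (H ⊗[ℂ] H) |
      ⟪p.2, ((vec x Ω A ⊗ₜ[ℂ] vec x Ω B : H ⊗[ℂ] H) :
        UniformSpace.Completion (H ⊗[ℂ] H))⟫_ℂ = ⟪p.1, η⟫_ℂ} :=
    isClosed_eq (by fun_prop) (by fun_prop)
  have hsub : (Set.range fun P : NCPoly m => (vec x Ω P, dvec x Ω i P)) ⊆
      {p : H × UniformSpace.Completion (H ⊗[ℂ] H) |
      ⟪p.2, ((vec x Ω A ⊗ₜ[ℂ] vec x Ω B : H ⊗[ℂ] H) :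
        UniformSpace.Completion (H ⊗[ℂ] H))⟫_ℂ = ⟪p.1, η⟫_ℂ} := by
    rintro _ ⟨Q, rfl⟩
    exact hη' Q
  have h1 := closure_minimal hsub hcl h
  have h2 := hη' P
  have h1' : ⟪ζ, ((vec x Ω A ⊗ₜ[ℂ] vec x Ω B : H ⊗[ℂ] H) :
        UniformSpace.Completion (H ⊗[ℂ] H))⟫_ℂ = ⟪vec x Ω P, η⟫_ℂ := h1
  rw [inner_sub_left, h1', h2, sub_self]

end Adj

section Resolvent

variable {H : Type u} [NormedAddCommGroup H] [InnerProductSpace ℂ H] [CompleteSpace H]

/-- the target of `(∂_1, …, ∂_m)`. -/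
abbrev TT (H : Type u) [NormedAddCommGroup H] [InnerProductSpace ℂ H] (m : ℕ) : Type u :=
  PiLp 2 (fun _ : Fin m => UniformSpace.Completion (H ⊗[ℂ] H))

/-- graph point -/
noncomputable def gp {m : ℕ} (x : Fin m → H →L[ℂ] H) (Ω : H) (P : NCPoly m) :
    WithLp 2 (H × TT H m) :=
  WithLp.toLp 2 (vec x Ω P, WithLp.toLp 2 fun i => dvec x Ω i P)

/-- closed graph of `(∂_1, …, ∂_m)`. -/
noncomputable def Gam {m : ℕ} (x : Fin m → H →L[ℂ] H) (Ω : H) :
    Submodule ℂ (WithLp 2 (H × TT H m)) :=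
  (Submodule.span ℂ (Set.range (gp x Ω))).topologicalClosure

instance {m : ℕ} (x : Fin m → H →L[ℂ] H) (Ω : H) : CompleteSpace (Gam x Ω) :=
  (Submodule.isClosed_topologicalClosure _).completeSpace_coe

/-- `ξ ↦ (ξ, 0)`. -/
noncomputable def inL (H : Type u) [NormedAddCommGroup H] [InnerProductSpace ℂ H] (m : ℕ) :
    H →L[ℂ] WithLp 2 (H × TT H m) :=
  ((WithLp.prodContinuousLinearEquiv 2 ℂ H (TT H m)).symm : _ →L[ℂ] _) ∘L
    ContinuousLinearMap.inl ℂ H (TT H m)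

lemma inL_apply {m : ℕ} (ξ : H) : inL H m ξ = WithLp.toLp 2 (ξ, 0) := rfl

/-- `(1 + T^* T)⁻¹` for `T` the closure of `(∂_1, …, ∂_m)`. -/
noncomputable def resol {m : ℕ} (x : Fin m → H →L[ℂ] H) (Ω : H) : H →L[ℂ] H :=
  (WithLp.fstL 2 ℂ H (TT H m)) ∘L (Gam x Ω).starProjection ∘L inL H m

lemma inner_resol {m : ℕ} (x : Fin m → H →L[ℂ] H) (Ω : H) (ξ η : H) :
    ⟪resol x Ω ξ, η⟫_ℂ = ⟪(Gam x Ω).starProjection (inL H m ξ), inL H m η⟫_ℂ := by
  rw [WithLp.prod_inner_apply, inL_apply, inL_apply]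
  simp only [inner_zero_right, add_zero]
  rfl

lemma inner_resol' {m : ℕ} (x : Fin m → H →L[ℂ] H) (Ω : H) (ξ η : H) :
    ⟪ξ, resol x Ω η⟫_ℂ = ⟪inL H m ξ, (Gam x Ω).starProjection (inL H m η)⟫_ℂ := by
  rw [← inner_conj_symm, inner_resol, inner_conj_symm]

lemma resol_isSymmetric {m : ℕ} (x : Fin m → H →L[ℂ] H) (Ω : H) (ξ η : H) :
    ⟪resol x Ω ξ, η⟫_ℂ = ⟪ξ, resol x Ω η⟫_ℂ := by
  rw [inner_resol, inner_resol', Submodule.inner_starProjection_left_eq_right]

lemma resol_selfAdjoint {m : ℕ} (x : Fin m → H →L[ℂ] H) (Ω : H) : IsSelfAdjoint (resol x Ω) := by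
  rw [ContinuousLinearMap.isSelfAdjoint_iff_isSymmetric]
  exact resol_isSymmetric x Ω

lemma norm_inL {m : ℕ} (ξ : H) : ‖inL H m ξ‖ = ‖ξ‖ := by
  have h : ⟪inL H m ξ, inL H m ξ⟫_ℂ = ⟪ξ, ξ⟫_ℂ := by
    rw [WithLp.prod_inner_apply, inL_apply]; simp
  rw [inner_self_eq_norm_sq_to_K, inner_self_eq_norm_sq_to_K] at h
  have h2 : ‖inL H m ξ‖ ^ 2 = ‖ξ‖ ^ 2 := by exact_mod_cast h
  exact (pow_left_inj₀ (norm_nonneg _) (norm_nonneg _) two_ne_zero).mp h2

lemma resol_nonneg {m : ℕ} (x : Fin m → H →L[ℂ] H) (Ω : H) : 0 ≤ resol x Ω := by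
  rw [ContinuousLinearMap.nonneg_iff_isPositive]
  refine ⟨resol_isSymmetric x Ω, fun ξ => ?_⟩
  rw [ContinuousLinearMap.reApplyInnerSelf_apply, inner_resol]
  have h1 : (Gam x Ω).starProjection (inL H m ξ)
      = (Gam x Ω).starProjection ((Gam x Ω).starProjection (inL H m ξ)) :=
    (Submodule.starProjection_eq_self_iff.mpr (Submodule.coe_mem _)).symm
  rw [h1, Submodule.inner_starProjection_left_eq_right, inner_self_eq_norm_sq_to_K]
  norm_cast
  positivity

lemma norm_resol_le {m : ℕ} (x : Fin m → H →L[ℂ] H) (Ω : H) : ‖resol x Ω‖ ≤ 1 := by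
  refine ContinuousLinearMap.opNorm_le_bound _ zero_le_one fun ξ => ?_
  rw [one_mul]
  have h1 : ‖resol x Ω ξ‖ ^ 2 ≤ ‖ξ‖ * ‖resol x Ω ξ‖ := by
    have h2 : ‖⟪resol x Ω ξ, resol x Ω ξ⟫_ℂ‖ = ‖resol x Ω ξ‖ ^ 2 := by
      rw [inner_self_eq_norm_sq_to_K]; simp
    rw [← h2, inner_resol]
    refine (norm_inner_le_norm _ _).trans ?_
    rw [norm_inL]
    gcongr
    refine ((Gam x Ω).starProjection.le_opNorm _).trans ?_
    rw [norm_inL]
    have := (Gam x Ω).starProjection_norm_le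
    nlinarith [norm_nonneg ξ]
  rcases (norm_nonneg (resol x Ω ξ)).eq_or_lt with h | h
  · rw [← h]; exact norm_nonneg _
  · nlinarith

lemma resol_spectrum {m : ℕ} (x : Fin m → H →L[ℂ] H) (Ω : H) :
    ∀ r ∈ spectrum ℝ (resol x Ω), 0 ≤ r ∧ r ≤ 1 := by
  intro r hr
  refine ⟨spectrum_nonneg_of_nonneg (resol_nonneg x Ω) hr, ?_⟩
  have h1 := spectrum.norm_le_norm_mul_of_mem hr
  have h2 : ‖(1 : H →L[ℂ] H)‖ ≤ 1 := ContinuousLinearMap.norm_id_le
  have h3 := norm_resol_le x Ω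
  rw [Real.norm_eq_abs] at h1
  have h4 := le_abs_self r
  nlinarith [norm_nonneg (resol x Ω), norm_nonneg (1 : H →L[ℂ] H)]

lemma resol_apply {m : ℕ} (x : Fin m → H →L[ℂ] H) (Ω : H) (P : NCPoly m) (w : Fin m → H)
    (hw : ∀ i, GraphAdjoint x Ω i (dvec x Ω i P) (w i)) :
    resol x Ω (vec x Ω P + ∑ i, w i) = vec x Ω P := by
  have h : (Gam x Ω).starProjection (inL H m (vec x Ω P + ∑ i, w i)) = gp x Ω P := by
    refine Submodule.eq_starProjection_of_mem_orthogonal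
      (Submodule.le_topologicalClosure _ (Submodule.subset_span ⟨P, rfl⟩)) ?_
    rw [Submodule.mem_orthogonal]
    intro θ hθ
    have hcl : IsClosed {θ : WithLp 2 (H × TT H m) |
        ⟪θ, inL H m (vec x Ω P + ∑ i, w i) - gp x Ω P⟫_ℂ = 0} :=
      isClosed_eq (by fun_prop) (by fun_prop)
    refine closure_minimal ?_ hcl hθ
    intro θ hθ
    simp only [Set.mem_ofPred_eq]
    induction hθ using Submodule.span_induction with
    | mem θ h =>
      obtain ⟨Q, rfl⟩ := h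
      rw [inner_sub_right, WithLp.prod_inner_apply, WithLp.prod_inner_apply, inL_apply, gp, gp]
      simp only [inner_zero_right, add_zero, PiLp.inner_apply, inner_add_right, inner_sum]
      have : ∀ i, ⟪dvec x Ω i Q, dvec x Ω i P⟫_ℂ = ⟪vec x Ω Q, w i⟫_ℂ := fun i => hw i Q
      simp only [this]
      ring
    | zero => simp
    | add a b _ _ ha hb => rw [inner_add_left, ha, hb, add_zero]
    | smul c a _ ha => rw [inner_smul_left, ha, mul_zero]
  rw [resol, ContinuousLinearMap.comp_apply, ContinuousLinearMap.comp_apply, h]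
  rfl

/-- **Existence of the heat semigroup.** -/
theorem exists_isHeatSemigroup {N : VonNeumannAlgebra H} {Ω : H} (hN : IsStandardForm N Ω) {m : ℕ}
    {x : Fin m → H →L[ℂ] H} (hx : ∀ i, IsSelfAdjoint (x i))
    (hNx : (N : Set (H →L[ℂ] H)) = Set.centralizer (Set.centralizer (Set.range x)))
    (hF : FiniteFreeFisher x Ω) : ∃ φ : ℝ → H →L[ℂ] H, IsHeatSemigroup x Ω φ := by
  have hxN : ∀ j, x j ∈ N := by
    intro j
    have h1 : x j ∈ Set.centralizer (Set.centralizer (Set.range x)) :=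
      Set.subset_centralizer_centralizer ⟨j, rfl⟩
    rw [← hNx] at h1
    exact h1
  have hdense : DenseRange (resol x Ω) := by
    refine (dense_vec hN hx hNx).mono ?_
    rintro _ ⟨P, rfl⟩
    have : ∀ i, ∃ η, GraphAdjoint x Ω i (dvec x Ω i P) η := by
      intro i
      obtain ⟨J, hJ⟩ := hF i
      obtain ⟨η, hη⟩ := exists_adj₀_map hN hx hxN hJ.adj₀ (fdq i P)
      exact ⟨η, Adj₀.graphAdjoint hη⟩
    choose w hw using this
    exact ⟨_, resol_apply x Ω P w hw⟩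
  have hsa := resol_selfAdjoint x Ω
  have hsp := resol_spectrum x Ω
  refine ⟨heat (resol x Ω), ?_, ?_, ?_, ?_, ?_⟩
  · simp [heat]
  · intro s t hs ht
    exact heat_add hsa s t hs ht
  · intro t _
    exact heat_selfAdjoint t
  · intro ξ
    exact tendsto_heat hsa hsp hdense ξ
  · rintro P η ⟨ζ, w, hζ, hw, rfl⟩
    have hw' : ∀ i, GraphAdjoint x Ω i (dvec x Ω i P) (w i) := by
      intro i
      obtain ⟨J, hJ⟩ := hF i
      have := GraphClosure.eq hN hx hxN hNx hJ.adj₀ (hζ i)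
      rw [← this]
      exact hw i
    have h1 := tendsto_gen hsa hsp hdense (vec x Ω P + ∑ i, w i)
    rw [resol_apply x Ω P w hw', add_sub_cancel_left] at h1
    exact h1

end Resolvent

end Pool.Agent.FreeHeat
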