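import Pool.Agent.FreeHeat.Defs

open scoped TensorProduct InnerProductSpace Topology Polynomial
open Filter

namespace Pool.Agent.FreeHeat

universe u

/-! ## Proofs -/

lemma fdqHom_apply {m : ℕ} (i : Fin m) (P : NCPoly m) :
    fdqHom i P = !![P ⊗ₜ[ℂ] 1, fdq i P; 0, 1 ⊗ₜ[ℂ] P] := by
  have h : fdqHom i P 0 0 = P ⊗ₜ[ℂ] 1 ∧ fdqHom i P 1 0 = 0 ∧ fdqHom i P 1 1 = 1 ⊗ₜ[ℂ] P := by
    induction P using FreeAlgebra.induction with
    | grade0 r =>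
      refine ⟨?_, ?_, ?_⟩
      · simp [Algebra.TensorProduct.algebraMap_apply, Matrix.algebraMap_matrix_apply]
      · simp [Matrix.algebraMap_matrix_apply]
      · simp only [AlgHom.commutes, Matrix.algebraMap_matrix_apply, if_true]
        exact Algebra.TensorProduct.algebraMap_apply' r
    | grade1 j => simp [fdqHom]
    | mul a b ha hb =>
      obtain ⟨ha0, ha1, ha2⟩ := ha
      obtain ⟨hb0, hb1, hb2⟩ := hb
      refine ⟨?_, ?_, ?_⟩ <;> simp [Matrix.mul_apply, Fin.sum_univ_two, *]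
    | add a b ha hb =>
      obtain ⟨ha0, ha1, ha2⟩ := ha
      obtain ⟨hb0, hb1, hb2⟩ := hb
      refine ⟨?_, ?_, ?_⟩ <;> simp [*, TensorProduct.add_tmul, TensorProduct.tmul_add]
  obtain ⟨h0, h1, h2⟩ := h
  ext a b
  fin_cases a <;> fin_cases b <;> simp [h0, h1, h2, fdq]

/-- `∂_i X_j = δ_{ij} 1 ⊗ 1`. -/
lemma fdq_ι {m : ℕ} (i j : Fin m) :
    fdq i (FreeAlgebra.ι ℂ j) = if i = j then 1 ⊗ₜ[ℂ] 1 else 0 := by
  simp [fdq, fdqHom]

/-- The Leibniz rule `∂_i (PQ) = P · ∂_i Q + ∂_i P · Q`, where `a · (ξ ⊗ η) · b = aξ ⊗ ηb`. -/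
lemma fdq_mul {m : ℕ} (i : Fin m) (P Q : NCPoly m) :
    fdq i (P * Q) = (P ⊗ₜ[ℂ] 1) * fdq i Q + fdq i P * (1 ⊗ₜ[ℂ] Q) := by
  have h := congrFun (congrFun (map_mul (fdqHom i) P Q) 0) 1
  rw [fdqHom_apply, fdqHom_apply, fdqHom_apply, Matrix.mul_apply, Fin.sum_univ_two] at h
  simpa using h

lemma fdq_one {m : ℕ} (i : Fin m) : fdq i (1 : NCPoly m) = 0 := by
  simp [fdq]

/-! ### one-variable difference quotient -/

/-- one variable analogue of `fdqHom`. -/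
noncomputable def dqHom : ℂ[X] →ₐ[ℂ] Matrix (Fin 2) (Fin 2) (ℂ[X] ⊗[ℂ] ℂ[X]) :=
  Polynomial.aeval !![(Polynomial.X : ℂ[X]) ⊗ₜ[ℂ] (1 : ℂ[X]), 1 ⊗ₜ[ℂ] 1; 0, 1 ⊗ₜ[ℂ] Polynomial.X]

/-- one variable difference quotient. -/
noncomputable def dq : ℂ[X] →ₗ[ℂ] ℂ[X] ⊗[ℂ] ℂ[X] :=
  (Matrix.entryLinearMap ℂ (ℂ[X] ⊗[ℂ] ℂ[X]) (0 : Fin 2) (1 : Fin 2)) ∘ₗ dqHom.toLinearMap

lemma dqHom_apply (P : ℂ[X]) : dqHom P = !![P ⊗ₜ[ℂ] 1, dq P; 0, 1 ⊗ₜ[ℂ] P] := by
  have h : dqHom P 0 0 = P ⊗ₜ[ℂ] 1 ∧ dqHom P 1 0 = 0 ∧ dqHom P 1 1 = 1 ⊗ₜ[ℂ] P := by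
    induction P using Polynomial.induction_on with
    | C a =>
      have hC : (Polynomial.C a : ℂ[X]) = algebraMap ℂ ℂ[X] a := rfl
      rw [hC]
      refine ⟨?_, ?_, ?_⟩
      · simp only [AlgHom.commutes, Matrix.algebraMap_matrix_apply, if_true]
        exact Algebra.TensorProduct.algebraMap_apply a
      · simp only [AlgHom.commutes, Matrix.algebraMap_matrix_apply]
        simp
      · simp only [AlgHom.commutes, Matrix.algebraMap_matrix_apply, if_true]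
        exact Algebra.TensorProduct.algebraMap_apply' a
    | add a b ha hb =>
      obtain ⟨ha0, ha1, ha2⟩ := ha
      obtain ⟨hb0, hb1, hb2⟩ := hb
      refine ⟨?_, ?_, ?_⟩ <;> simp [*, TensorProduct.add_tmul, TensorProduct.tmul_add]
    | monomial n a h =>
      obtain ⟨h0, h1, h2⟩ := h
      have e : (Polynomial.C a * Polynomial.X ^ (n+1) : ℂ[X])
        = (Polynomial.C a * Polynomial.X ^ n) * Polynomial.X := by ring
      have hX : dqHom Polynomial.X = !![(Polynomial.X : ℂ[X]) ⊗ₜ[ℂ] (1 : ℂ[X]), 1 ⊗ₜ[ℂ] 1;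
          0, 1 ⊗ₜ[ℂ] Polynomial.X] := by simp [dqHom]
      rw [e, map_mul, hX]
      refine ⟨?_, ?_, ?_⟩ <;>
        rw [Matrix.mul_apply, Fin.sum_univ_two] <;> simp [h0, h1, h2]
  obtain ⟨h0, h1, h2⟩ := h
  ext a b
  fin_cases a <;> fin_cases b <;> simp [h0, h1, h2, dq]

lemma dq_mul (P Q : ℂ[X]) :
    dq (P * Q) = (P ⊗ₜ[ℂ] 1) * dq Q + dq P * (1 ⊗ₜ[ℂ] Q) := by
  have h := congrFun (congrFun (map_mul dqHom P Q) 0) 1
  rw [dqHom_apply, dqHom_apply, dqHom_apply, Matrix.mul_apply, Fin.sum_univ_two] at h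
  simpa using h

lemma dq_one : dq (1 : ℂ[X]) = 0 := by simp [dq]

lemma dq_X : dq (Polynomial.X : ℂ[X]) = 1 ⊗ₜ[ℂ] 1 := by simp [dq, dqHom]

lemma fdq_aeval {m : ℕ} (i : Fin m) (P : ℂ[X]) :
    fdq i (Polynomial.aeval (FreeAlgebra.ι ℂ i) P)
      = TensorProduct.map (Polynomial.aeval (FreeAlgebra.ι ℂ i)).toLinearMap
          (Polynomial.aeval (FreeAlgebra.ι ℂ i)).toLinearMap (dq P) := by
  induction P using Polynomial.induction_on with
  | C a => 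
    have hC : (Polynomial.C a : ℂ[X]) = a • 1 := by simp [Polynomial.smul_eq_C_mul]
    simp only [hC, map_smul, dq_one, map_one, fdq_one, smul_zero, map_zero]
  | add a b ha hb => simp only [map_add, ha, hb]
  | monomial n a h =>
    have e : (Polynomial.C a * Polynomial.X ^ (n+1) : ℂ[X])
        = (Polynomial.C a * Polynomial.X ^ n) * Polynomial.X := by ring
    rw [e, map_mul, fdq_mul, h, dq_mul _ Polynomial.X, Polynomial.aeval_X, fdq_ι, if_pos rfl, dq_X]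
    rw [map_add]
    congr 1
    · simp 
    · generalize dq (Polynomial.C a * Polynomial.X ^ n) = ζ
      induction ζ using TensorProduct.induction_on with
      | zero => simp
      | tmul p q => simp
      | add p q hp hq => simp only [map_add, add_mul, hp, hq]

lemma fdq_aeval_ne {m : ℕ} (i j : Fin m) (hij : j ≠ i) (P : ℂ[X]) :
    fdq j (Polynomial.aeval (FreeAlgebra.ι ℂ i) P) = 0 := by
  induction P using Polynomial.induction_on with
  | C a => 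
    have hC : (Polynomial.C a : ℂ[X]) = a • 1 := by simp [Polynomial.smul_eq_C_mul]
    simp only [hC, map_smul, map_one, fdq_one, smul_zero]
  | add a b ha hb => simp only [map_add, ha, hb, add_zero]
  | monomial n a h =>
    have e : (Polynomial.C a * Polynomial.X ^ (n+1) : ℂ[X])
        = (Polynomial.C a * Polynomial.X ^ n) * Polynomial.X := by ring
    rw [e, map_mul, fdq_mul, h, Polynomial.aeval_X, fdq_ι, if_neg hij]
    simp

section OneVar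

variable {H : Type u} [NormedAddCommGroup H] [InnerProductSpace ℂ H] [CompleteSpace H]

/-- `τ(p(A)) = ⟪Ω, p(A) Ω⟫`. -/
noncomputable def tau (A : H →L[ℂ] H) (Ω : H) : ℂ[X] →ₗ[ℂ] ℂ :=
  (innerSL ℂ Ω).toLinearMap ∘ₗ (ContinuousLinearMap.apply ℂ H Ω).toLinearMap ∘ₗ
    (Polynomial.aeval A).toLinearMap

lemma tau_apply (A : H →L[ℂ] H) (Ω : H) (p : ℂ[X]) :
    tau A Ω p = ⟪Ω, Polynomial.aeval A p Ω⟫_ℂ := rfl

lemma norm_tau_le (A : H →L[ℂ] H) (Ω : H) (hΩ : ‖Ω‖ = 1) (p : ℂ[X]) :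
    ‖tau A Ω p‖ ≤ ‖Polynomial.aeval A p‖ := by
  rw [tau_apply]
  calc ‖⟪Ω, Polynomial.aeval A p Ω⟫_ℂ‖ ≤ ‖Ω‖ * ‖Polynomial.aeval A p Ω‖ := norm_inner_le_norm _ _
    _ ≤ ‖Ω‖ * (‖Polynomial.aeval A p‖ * ‖Ω‖) := by
      gcongr
      exact ContinuousLinearMap.le_opNorm _ _
    _ = ‖Polynomial.aeval A p‖ := by rw [hΩ]; ring

/-- The vectors `∂^*(A^n ⊗ 1)`. -/
noncomputable def vseq (A : H →L[ℂ] H) (Ω J : H) : ℕ → H
  | 0 => J
  | n + 1 => A (vseq A Ω J n) - tau A Ω (Polynomial.X ^ n) • Ω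

/-- `D1 p = ∂^*(p(A) ⊗ 1)`. -/
noncomputable def D1 (A : H →L[ℂ] H) (Ω J : H) : ℂ[X] →ₗ[ℂ] H :=
  (Polynomial.basisMonomials ℂ).constr ℂ (vseq A Ω J)

lemma D1_X_pow (A : H →L[ℂ] H) (Ω J : H) (n : ℕ) :
    D1 A Ω J (Polynomial.X ^ n) = vseq A Ω J n := by
  have := (Polynomial.basisMonomials ℂ).constr_basis ℂ (vseq A Ω J) n
  simpa [D1, Polynomial.X_pow_eq_monomial] using this

lemma D1_one (A : H →L[ℂ] H) (Ω J : H) : D1 A Ω J 1 = J := by
  simpa [vseq] using D1_X_pow A Ω J 0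

lemma D1_mul_X (A : H →L[ℂ] H) (Ω J : H) (p : ℂ[X]) :
    D1 A Ω J (p * Polynomial.X) = A (D1 A Ω J p) - tau A Ω p • Ω := by
  induction p using Polynomial.induction_on' with
  | add p q hp hq => simp only [add_mul, map_add, hp, hq, add_smul]; abel
  | monomial n a =>
    have e : (Polynomial.monomial n a : ℂ[X]) = a • Polynomial.X ^ n := by
      simp [Polynomial.smul_eq_C_mul, Polynomial.C_mul_X_pow_eq_monomial]
    rw [e, smul_mul_assoc, ← pow_succ, map_smul, D1_X_pow, map_smul, D1_X_pow, vseq, map_smul,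
      map_smul, smul_sub, smul_smul, smul_eq_mul]

lemma aeval_mul_X_apply (A : H →L[ℂ] H) (p : ℂ[X]) (ξ : H) :
    Polynomial.aeval A (p * Polynomial.X) ξ = A (Polynomial.aeval A p ξ) := by
  rw [mul_comm, map_mul, Polynomial.aeval_X]; rfl

/-- the abstract no-growth lemma. -/
lemma le_one_of_sq_le (c : ℕ → ℝ) (K : ℝ) (_h0 : ∀ n, 0 ≤ c n)
    (hsq : ∀ n, 1 ≤ n → c n ^ 2 ≤ c (2 * n)) (hgrow : ∀ n, c n ≤ 1 + n * K) : c 1 ≤ 1 := by
  by_contra hlt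
  push Not at hlt
  have hpow : ∀ k : ℕ, c 1 ^ (2 ^ k) ≤ c (2 ^ k) := by
    intro k
    induction k with
    | zero => simp
    | succ k ih =>
      calc c 1 ^ (2 ^ (k + 1)) = (c 1 ^ (2 ^ k)) ^ 2 := by rw [← pow_mul, pow_succ]
        _ ≤ (c (2 ^ k)) ^ 2 := by gcongr; 
        _ ≤ c (2 * 2 ^ k) := hsq _ Nat.one_le_two_pow
        _ = c (2 ^ (k + 1)) := by rw [pow_succ, mul_comm]
  have hr0 : 0 < c 1 := by linarith
  have hr : |(c 1)⁻¹| < 1 := by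
    rw [abs_of_pos (inv_pos.mpr hr0)]
    exact inv_lt_one_of_one_lt₀ hlt
  have h1 : Tendsto (fun n : ℕ => (n : ℝ) * (c 1)⁻¹ ^ n) atTop (𝓝 0) := by
    simpa using tendsto_pow_const_mul_const_pow_of_abs_lt_one 1 hr
  have h2 : Tendsto (fun n : ℕ => (c 1)⁻¹ ^ n) atTop (𝓝 0) :=
    tendsto_pow_atTop_nhds_zero_of_abs_lt_one hr
  have h3 : Tendsto (fun n : ℕ => (c 1)⁻¹ ^ n + K * ((n : ℝ) * (c 1)⁻¹ ^ n)) atTop (𝓝 (0 + K * 0)) :=
    h2.add (h1.const_mul K)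
  have h4 := h3.comp (tendsto_pow_atTop_atTop_of_one_lt (r := 2) (by norm_num))
  have h5 : ∀ k : ℕ, 1 ≤ ((fun n : ℕ => (c 1)⁻¹ ^ n + K * ((n : ℝ) * (c 1)⁻¹ ^ n)) ∘ fun k => 2 ^ k) k := by
    intro k
    simp only [Function.comp]
    have h6 := (hpow k).trans (hgrow (2 ^ k))
    have h7 : 0 < (c 1)⁻¹ ^ (2 ^ k) := by positivity
    calc (1 : ℝ) = c 1 ^ (2 ^ k) * (c 1)⁻¹ ^ (2 ^ k) := by
          rw [← mul_pow, mul_inv_cancel₀ hr0.ne', one_pow]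
      _ ≤ (1 + ((2 ^ k : ℕ) : ℝ) * K) * (c 1)⁻¹ ^ (2 ^ k) := by gcongr
      _ = _ := by push_cast; ring
  have h8 := ge_of_tendsto' h4 h5
  norm_num at h8

end OneVar

section OneVar

variable {H : Type u} [NormedAddCommGroup H] [InnerProductSpace ℂ H] [CompleteSpace H]

/-- conjugate the coefficients -/
noncomputable def pstar (p : ℂ[X]) : ℂ[X] := p.map (starRingEnd ℂ)

lemma pstar_pstar (p : ℂ[X]) : pstar (pstar p) = p := by
  simp [pstar, Polynomial.map_map]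

lemma pstar_mul (p q : ℂ[X]) : pstar (p * q) = pstar p * pstar q := by simp [pstar]

lemma aeval_pstar (A : H →L[ℂ] H) (hA : IsSelfAdjoint A) (p : ℂ[X]) :
    Polynomial.aeval A (pstar p) = star (Polynomial.aeval A p) := by
  induction p using Polynomial.induction_on' with
  | add p q hp hq => simp only [pstar, Polynomial.map_add, map_add, star_add] at *; rw [hp, hq]
  | monomial n a =>
    simp only [pstar, Polynomial.map_monomial, Polynomial.aeval_monomial]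
    rw [star_mul, star_pow, hA.star_eq, ← algebraMap_star_comm]
    exact Algebra.commutes _ _

lemma inner_D1_mul_X (A : H →L[ℂ] H) (hA : IsSelfAdjoint A) (Ω J : H)
    (hort : ∀ p, ⟪Ω, D1 A Ω J p⟫_ℂ = 0) (p q : ℂ[X]) :
    ⟪D1 A Ω J q, D1 A Ω J (p * Polynomial.X)⟫_ℂ = ⟪D1 A Ω J (q * Polynomial.X), D1 A Ω J p⟫_ℂ := by
  have hort' : ∀ p, ⟪D1 A Ω J p, Ω⟫_ℂ = 0 := fun p => by
    rw [← inner_conj_symm, hort, map_zero]
  have hsym : ∀ a b : H, ⟪a, A b⟫_ℂ = ⟪A a, b⟫_ℂ := fun a b => by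
    rw [← ContinuousLinearMap.adjoint_inner_left]
    rw [← ContinuousLinearMap.star_eq_adjoint, hA.star_eq]
  rw [D1_mul_X, D1_mul_X, inner_sub_right, inner_sub_left, inner_smul_right, inner_smul_left,
    hort, hort', hsym]
  simp

lemma inner_D1 (A : H →L[ℂ] H) (hA : IsSelfAdjoint A) (Ω J : H)
    (hort : ∀ p, ⟪Ω, D1 A Ω J p⟫_ℂ = 0) (p q : ℂ[X]) :
    ⟪D1 A Ω J q, D1 A Ω J p⟫_ℂ = ⟪D1 A Ω J (pstar p * q), J⟫_ℂ := by
  have key : ∀ (n : ℕ) (q : ℂ[X]), ⟪D1 A Ω J q, D1 A Ω J (Polynomial.X ^ n)⟫_ℂ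
      = ⟪D1 A Ω J (Polynomial.X ^ n * q), J⟫_ℂ := by
    intro n
    induction n with
    | zero => intro q; rw [pow_zero, one_mul, D1_one]
    | succ n ih =>
      intro q
      have e : (Polynomial.X ^ n * (q * Polynomial.X) : ℂ[X])
          = Polynomial.X ^ n * Polynomial.X * q := by ring
      rw [pow_succ, inner_D1_mul_X A hA Ω J hort, ih, e]
  induction p using Polynomial.induction_on' with
  | add p₁ p₂ h₁ h₂ =>
    have : pstar (p₁ + p₂) = pstar p₁ + pstar p₂ := by simp [pstar]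
    rw [map_add, inner_add_right, h₁, h₂, this, add_mul, map_add, inner_add_left]
  | monomial n a =>
    have e : (Polynomial.monomial n a : ℂ[X]) = a • Polynomial.X ^ n := by
      simp [Polynomial.smul_eq_C_mul, Polynomial.C_mul_X_pow_eq_monomial]
    have e2 : pstar (a • Polynomial.X ^ n : ℂ[X]) = (starRingEnd ℂ a) • Polynomial.X ^ n := by
      simp [pstar, Polynomial.smul_eq_C_mul]
    rw [e, map_smul, inner_smul_right, key, e2, smul_mul_assoc, map_smul, inner_smul_left]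
    simp

lemma norm_D1_sq_le (A : H →L[ℂ] H) (hA : IsSelfAdjoint A) (Ω J : H)
    (hort : ∀ p, ⟪Ω, D1 A Ω J p⟫_ℂ = 0) (p : ℂ[X]) :
    ‖D1 A Ω J p‖ ^ 2 ≤ ‖D1 A Ω J (pstar p * p)‖ * ‖J‖ := by
  have h := inner_D1 A hA Ω J hort p p
  have h2 : ‖⟪D1 A Ω J p, D1 A Ω J p⟫_ℂ‖ = ‖D1 A Ω J p‖ ^ 2 := by
    rw [inner_self_eq_norm_sq_to_K]
    simp
  rw [← h2, h]
  exact norm_inner_le_norm _ _

lemma exists_K (A : H →L[ℂ] H) (Ω J : H) (hΩ : ‖Ω‖ = 1) (b : ℂ[X]) :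
    ∃ K : ℝ, 0 ≤ K ∧ ∀ q : ℂ[X], ‖D1 A Ω J (b * q) - Polynomial.aeval A b (D1 A Ω J q)‖
      ≤ K * ‖Polynomial.aeval A q‖ := by
  induction b using Polynomial.induction_on with
  | C a =>
    refine ⟨0, le_rfl, fun q => ?_⟩
    have : (Polynomial.C a * q : ℂ[X]) = a • q := by rw [Polynomial.smul_eq_C_mul]
    rw [this, map_smul, Polynomial.aeval_C, Algebra.algebraMap_eq_smul_one]
    simp
  | add b₁ b₂ h₁ h₂ =>
    obtain ⟨K₁, hK₁, h₁⟩ := h₁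
    obtain ⟨K₂, hK₂, h₂⟩ := h₂
    refine ⟨K₁ + K₂, by positivity, fun q => ?_⟩
    have e : D1 A Ω J ((b₁ + b₂) * q) - Polynomial.aeval A (b₁ + b₂) (D1 A Ω J q)
        = (D1 A Ω J (b₁ * q) - Polynomial.aeval A b₁ (D1 A Ω J q))
          + (D1 A Ω J (b₂ * q) - Polynomial.aeval A b₂ (D1 A Ω J q)) := by
      rw [add_mul, map_add, map_add, add_apply]; abel
    rw [e, add_mul]
    exact (norm_add_le _ _).trans (add_le_add (h₁ q) (h₂ q))
  | monomial n a h =>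
    obtain ⟨K, hK, h⟩ := h
    set b : ℂ[X] := Polynomial.C a * Polynomial.X ^ n with hb
    have eb : (Polynomial.C a * Polynomial.X ^ (n + 1) : ℂ[X]) = b * Polynomial.X := by
      rw [hb]; ring
    rw [eb]
    refine ⟨‖A‖ * K + ‖Polynomial.aeval A b‖, by positivity, fun q => ?_⟩
    have e : D1 A Ω J (b * Polynomial.X * q) - Polynomial.aeval A (b * Polynomial.X) (D1 A Ω J q)
        = A (D1 A Ω J (b * q) - Polynomial.aeval A b (D1 A Ω J q)) - tau A Ω (b * q) • Ω := by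
      have : b * Polynomial.X * q = (b * q) * Polynomial.X := by ring
      rw [this, D1_mul_X, aeval_mul_X_apply, map_sub]
      abel
    rw [e]
    calc ‖A (D1 A Ω J (b * q) - Polynomial.aeval A b (D1 A Ω J q)) - tau A Ω (b * q) • Ω‖
        ≤ ‖A (D1 A Ω J (b * q) - Polynomial.aeval A b (D1 A Ω J q))‖ + ‖tau A Ω (b * q) • Ω‖ :=
          norm_sub_le _ _
      _ ≤ ‖A‖ * (K * ‖Polynomial.aeval A q‖) + ‖Polynomial.aeval A b‖ * ‖Polynomial.aeval A q‖ := by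
          gcongr
          · exact (A.le_opNorm _).trans (by gcongr; exact h q)
          · rw [norm_smul, hΩ, mul_one]
            refine (norm_tau_le A Ω hΩ _).trans ?_
            rw [map_mul]
            exact norm_mul_le _ _
      _ = _ := by ring

/-- Dabrowski-type bound for self-adjoint polynomials -/
lemma norm_D1_le_sa (A : H →L[ℂ] H) (hA : IsSelfAdjoint A) (Ω J : H) (hΩ : ‖Ω‖ = 1)
    (hort : ∀ p, ⟪Ω, D1 A Ω J p⟫_ℂ = 0) (b : ℂ[X]) (hb : pstar b = b) :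
    ‖D1 A Ω J b‖ ≤ ‖J‖ * ‖Polynomial.aeval A b‖ := by
  obtain ⟨K, hK, hKb⟩ := exists_K A Ω J hΩ b
  set β := ‖Polynomial.aeval A b‖ with hβ
  have hβ0 : 0 ≤ β := norm_nonneg _
  have step : ∀ q : ℂ[X], ‖D1 A Ω J (b * q)‖ ≤ β * ‖D1 A Ω J q‖ + K * ‖Polynomial.aeval A q‖ := by
    intro q
    calc ‖D1 A Ω J (b * q)‖
        = ‖Polynomial.aeval A b (D1 A Ω J q)
            + (D1 A Ω J (b * q) - Polynomial.aeval A b (D1 A Ω J q))‖ := by congr 1; abel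
      _ ≤ β * ‖D1 A Ω J q‖ + K * ‖Polynomial.aeval A q‖ :=
          (norm_add_le _ _).trans (add_le_add (ContinuousLinearMap.le_opNorm _ _) (hKb q))
  rcases hβ0.eq_or_lt with h0 | hpos
  · -- β = 0
    have hz : Polynomial.aeval A b = 0 := norm_eq_zero.mp h0.symm
    have h1 := step b
    rw [← h0, hz] at h1
    simp only [zero_mul, norm_zero, mul_zero, add_zero] at h1
    have h2 := norm_D1_sq_le A hA Ω J hort b
    rw [hb] at h2
    have h3 : ‖D1 A Ω J b‖ ^ 2 ≤ 0 := h2.trans (by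
      have : ‖D1 A Ω J (b * b)‖ = 0 := le_antisymm h1 (norm_nonneg _)
      rw [this, zero_mul])
    have h4 : ‖D1 A Ω J b‖ = 0 := by
      have := sq_nonneg ‖D1 A Ω J b‖
      exact pow_eq_zero_iff (two_ne_zero) |>.mp (le_antisymm h3 this)
    rw [h4, ← h0, mul_zero]
  rcases (norm_nonneg J).eq_or_lt with hJ0 | hJpos
  · have h2 := norm_D1_sq_le A hA Ω J hort b
    rw [← hJ0, mul_zero] at h2
    have h4 : ‖D1 A Ω J b‖ = 0 := by
      have := sq_nonneg ‖D1 A Ω J b‖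
      exact pow_eq_zero_iff (two_ne_zero) |>.mp (le_antisymm h2 this)
    rw [h4, ← hJ0, zero_mul]
  have hpow : ∀ n : ℕ, ‖D1 A Ω J (b ^ n)‖ ≤ β ^ n * (‖J‖ + n * (K / β)) := by
    intro n
    induction n with
    | zero => simp [D1_one]
    | succ n ih =>
      have h1 := step (b ^ n)
      have h2 : ‖Polynomial.aeval A (b ^ n)‖ ≤ β ^ n := by
        rcases n with _ | n
        · simp only [pow_zero, map_one]
          exact ContinuousLinearMap.norm_id_le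
        · rw [map_pow]; exact norm_pow_le' _ (Nat.succ_pos n)
      rw [pow_succ' b n]
      calc ‖D1 A Ω J (b * b ^ n)‖ ≤ β * ‖D1 A Ω J (b ^ n)‖ + K * ‖Polynomial.aeval A (b ^ n)‖ := h1
        _ ≤ β * (β ^ n * (‖J‖ + n * (K / β))) + K * β ^ n := by gcongr
        _ = β ^ (n + 1) * (‖J‖ + (n + 1 : ℕ) * (K / β)) := by
          field_simp
          push_cast
          ring
  have hsq : ∀ n : ℕ, ‖D1 A Ω J (b ^ n)‖ ^ 2 ≤ ‖D1 A Ω J (b ^ (2 * n))‖ * ‖J‖ := by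
    intro n
    have h1 := norm_D1_sq_le A hA Ω J hort (b ^ n)
    have h2 : pstar (b ^ n) = b ^ n := by
      rw [pstar, Polynomial.map_pow]
      rw [pstar] at hb
      rw [hb]
    rw [h2, ← pow_add, ← two_mul] at h1
    exact h1
  have hc := le_one_of_sq_le (fun n => ‖D1 A Ω J (b ^ n)‖ / (β ^ n * ‖J‖)) (K / β / ‖J‖)
    (fun n => by positivity) (fun n _ => by
      beta_reduce
      rw [div_pow, div_le_div_iff₀ (by positivity) (by positivity)]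
      calc ‖D1 A Ω J (b ^ n)‖ ^ 2 * (β ^ (2 * n) * ‖J‖)
          ≤ (‖D1 A Ω J (b ^ (2 * n))‖ * ‖J‖) * (β ^ (2 * n) * ‖J‖) := by
            gcongr; exact hsq n
        _ = ‖D1 A Ω J (b ^ (2 * n))‖ * (β ^ n * ‖J‖) ^ 2 := by ring)
    (fun n => by
      rw [div_le_iff₀ (by positivity)]
      refine (hpow n).trans (le_of_eq ?_)
      field_simp)
  simp only [pow_one] at hc
  rw [div_le_iff₀ (by positivity), one_mul] at hc
  linarith [mul_comm β ‖J‖]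

/-- Dabrowski-type bound: `‖∂^*(a ⊗ 1)‖ ≤ ‖J‖ ‖a‖`. -/
lemma norm_D1_le (A : H →L[ℂ] H) (hA : IsSelfAdjoint A) (Ω J : H) (hΩ : ‖Ω‖ = 1)
    (hort : ∀ p, ⟪Ω, D1 A Ω J p⟫_ℂ = 0) (p : ℂ[X]) :
    ‖D1 A Ω J p‖ ≤ ‖J‖ * ‖Polynomial.aeval A p‖ := by
  have h1 := norm_D1_sq_le A hA Ω J hort p
  have h2 := norm_D1_le_sa A hA Ω J hΩ hort (pstar p * p) (by
    rw [pstar_mul, pstar_pstar, mul_comm])
  have h3 : ‖Polynomial.aeval A (pstar p * p)‖ = ‖Polynomial.aeval A p‖ ^ 2 := by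
    rw [map_mul, aeval_pstar A hA, CStarRing.norm_star_mul_self, sq]
  rw [h3] at h2
  have h4 : ‖D1 A Ω J p‖ ^ 2 ≤ (‖J‖ * ‖Polynomial.aeval A p‖) ^ 2 := by
    calc ‖D1 A Ω J p‖ ^ 2 ≤ ‖D1 A Ω J (pstar p * p)‖ * ‖J‖ := h1
      _ ≤ (‖J‖ * ‖Polynomial.aeval A p‖ ^ 2) * ‖J‖ := by gcongr
      _ = _ := by ring
  exact (pow_le_pow_iff_left₀ (norm_nonneg _) (by positivity) two_ne_zero).mp h4

end OneVar

section Defs

variable {H : Type u} [NormedAddCommGroup H] [InnerProductSpace ℂ H] [CompleteSpace H]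

lemma vec_apply {m : ℕ} (x : Fin m → H →L[ℂ] H) (Ω : H) (P : NCPoly m) :
    vec x Ω P = ev x P Ω := rfl

lemma vec_mul {m : ℕ} (x : Fin m → H →L[ℂ] H) (Ω : H) (P Q : NCPoly m) :
    vec x Ω (P * Q) = ev x P (vec x Ω Q) := by
  simp [vec_apply, map_mul]

lemma ev_ι {m : ℕ} (x : Fin m → H →L[ℂ] H) (i : Fin m) : ev x (FreeAlgebra.ι ℂ i) = x i := by
  simp [ev]

lemma dvec₀_ι_mul {m : ℕ} (x : Fin m → H →L[ℂ] H) (Ω : H) (i : Fin m) (Q : NCPoly m) :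
    dvec₀ x Ω i (FreeAlgebra.ι ℂ i * Q)
      = TensorProduct.map (x i).toLinearMap LinearMap.id (dvec₀ x Ω i Q) + Ω ⊗ₜ vec x Ω Q := by
  have h1 : vec x Ω 1 = Ω := by simp [vec_apply]
  rw [dvec₀, LinearMap.comp_apply, fdq_mul, fdq_ι, if_pos rfl, map_add, LinearMap.comp_apply]
  congr 1
  · generalize fdq i Q = ζ
    induction ζ using TensorProduct.induction_on with
    | zero => simp
    | tmul p q => simp [vec_mul, ev_ι]
    | add p q hp hq => simp only [map_add, mul_add, hp, hq]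
  · simp [h1]

/-- Right multiplication. `R (P(x)Ω) = P(x) x_i Ω`. -/
lemma dvec₀_mul_ι {m : ℕ} (x : Fin m → H →L[ℂ] H) (Ω : H) (i : Fin m) (R : H →L[ℂ] H)
    (hR : ∀ P : NCPoly m, R (vec x Ω P) = vec x Ω (P * FreeAlgebra.ι ℂ i)) (Q : NCPoly m) :
    dvec₀ x Ω i (Q * FreeAlgebra.ι ℂ i)
      = vec x Ω Q ⊗ₜ Ω + TensorProduct.map LinearMap.id R.toLinearMap (dvec₀ x Ω i Q) := by
  have h1 : vec x Ω 1 = Ω := by simp [vec_apply]
  rw [dvec₀, LinearMap.comp_apply, fdq_mul, fdq_ι, if_pos rfl, map_add, LinearMap.comp_apply]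
  congr 1
  · simp [h1]
  · generalize fdq i Q = ζ
    induction ζ using TensorProduct.induction_on with
    | zero => simp
    | tmul p q => simp [hR]
    | add p q hp hq => simp only [map_add, add_mul, hp, hq]

/-- `ζ ∈ D(∂_i^*)` and `∂_i^* ζ = η`, algebraic version. -/
def Adj₀ {m : ℕ} (x : Fin m → H →L[ℂ] H) (Ω : H) (i : Fin m) (ζ : H ⊗[ℂ] H) (η : H) : Prop :=
  ∀ Q : NCPoly m, ⟪dvec₀ x Ω i Q, ζ⟫_ℂ = ⟪vec x Ω Q, η⟫_ℂ

lemma inner_map_left (A : H →L[ℂ] H) (hA : IsSelfAdjoint A) (ζ : H ⊗[ℂ] H) (a b : H) :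
    ⟪TensorProduct.map A.toLinearMap LinearMap.id ζ, a ⊗ₜ[ℂ] b⟫_ℂ = ⟪ζ, (A a) ⊗ₜ[ℂ] b⟫_ℂ := by
  have hsym : ∀ a b : H, ⟪A a, b⟫_ℂ = ⟪a, A b⟫_ℂ := fun a b => by
    rw [← ContinuousLinearMap.adjoint_inner_left]
    rw [← ContinuousLinearMap.star_eq_adjoint, hA.star_eq]
  induction ζ using TensorProduct.induction_on with
  | zero => simp
  | tmul p q => simp [hsym]
  | add p q hp hq => simp only [map_add, inner_add_left, hp, hq]

lemma inner_map_right (A : H →L[ℂ] H) (hA : IsSelfAdjoint A) (ζ : H ⊗[ℂ] H) (a b : H) :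
    ⟪TensorProduct.map LinearMap.id A.toLinearMap ζ, a ⊗ₜ[ℂ] b⟫_ℂ = ⟪ζ, a ⊗ₜ[ℂ] (A b)⟫_ℂ := by
  have hsym : ∀ a b : H, ⟪A a, b⟫_ℂ = ⟪a, A b⟫_ℂ := fun a b => by
    rw [← ContinuousLinearMap.adjoint_inner_left]
    rw [← ContinuousLinearMap.star_eq_adjoint, hA.star_eq]
  induction ζ using TensorProduct.induction_on with
  | zero => simp
  | tmul p q => simp [hsym]
  | add p q hp hq => simp only [map_add, inner_add_left, hp, hq]

lemma Adj₀.left {m : ℕ} {x : Fin m → H →L[ℂ] H} {Ω : H} {i : Fin m} (hx : IsSelfAdjoint (x i))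
    {a b η : H} (h : Adj₀ x Ω i (a ⊗ₜ b) η) :
    Adj₀ x Ω i ((x i a) ⊗ₜ b) (x i η - ⟪Ω, a⟫_ℂ • b) := by
  intro Q
  have hsym : ∀ a b : H, ⟪x i a, b⟫_ℂ = ⟪a, x i b⟫_ℂ := fun a b => by
    rw [← ContinuousLinearMap.adjoint_inner_left]
    rw [← ContinuousLinearMap.star_eq_adjoint, hx.star_eq]
  have h1 := h (FreeAlgebra.ι ℂ i * Q)
  rw [dvec₀_ι_mul, inner_add_left, inner_map_left _ hx, vec_mul, ev_ι, hsym] at h1
  rw [TensorProduct.inner_tmul] at h1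
  rw [inner_sub_right, inner_smul_right, ← h1]
  ring

lemma Adj₀.right {m : ℕ} {x : Fin m → H →L[ℂ] H} {Ω : H} {i : Fin m} {R : H →L[ℂ] H}
    (hRsa : IsSelfAdjoint R)
    (hR : ∀ P : NCPoly m, R (vec x Ω P) = vec x Ω (P * FreeAlgebra.ι ℂ i))
    {a b η : H} (h : Adj₀ x Ω i (a ⊗ₜ b) η) :
    Adj₀ x Ω i (a ⊗ₜ (R b)) (R η - ⟪Ω, b⟫_ℂ • a) := by
  intro Q
  have hsym : ∀ a b : H, ⟪R a, b⟫_ℂ = ⟪a, R b⟫_ℂ := fun a b => by
    rw [← ContinuousLinearMap.adjoint_inner_left]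
    rw [← ContinuousLinearMap.star_eq_adjoint, hRsa.star_eq]
  have h1 := h (Q * FreeAlgebra.ι ℂ i)
  rw [dvec₀_mul_ι x Ω i R hR, inner_add_left, inner_map_right _ hRsa, ← hR, hsym] at h1
  rw [TensorProduct.inner_tmul] at h1
  rw [inner_sub_right, inner_smul_right, ← h1]
  ring

end Defs

section Right

variable {H : Type u} [NormedAddCommGroup H] [InnerProductSpace ℂ H] [CompleteSpace H]

lemma inner_star_left (a : H →L[ℂ] H) (ξ η : H) : ⟪star a ξ, η⟫_ℂ = ⟪ξ, a η⟫_ℂ := by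
  rw [ContinuousLinearMap.star_eq_adjoint, ContinuousLinearMap.adjoint_inner_left]

lemma inner_star_right (a : H →L[ℂ] H) (ξ η : H) : ⟪ξ, star a η⟫_ℂ = ⟪a ξ, η⟫_ℂ := by
  rw [ContinuousLinearMap.star_eq_adjoint, ContinuousLinearMap.adjoint_inner_right]

lemma IsStandardForm.norm_star {N : VonNeumannAlgebra H} {Ω : H} (hN : IsStandardForm N Ω)
    {a : H →L[ℂ] H} (ha : a ∈ N) : ‖star a Ω‖ = ‖a Ω‖ := by
  have h1 : ⟪star a Ω, star a Ω⟫_ℂ = ⟪a Ω, a Ω⟫_ℂ := by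
    rw [inner_star_left]
    have := hN.tracial a ha (star a) (star_mem ha)
    simp only [mul_apply_eq_comp] at this
    rw [this, inner_star_right]
  rw [inner_self_eq_norm_sq_to_K, inner_self_eq_norm_sq_to_K] at h1
  have h2 : ‖star a Ω‖ ^ 2 = ‖a Ω‖ ^ 2 := by exact_mod_cast h1
  exact (pow_left_inj₀ (norm_nonneg _) (norm_nonneg _) two_ne_zero).mp h2

lemma IsStandardForm.norm_mul_le {N : VonNeumannAlgebra H} {Ω : H} (hN : IsStandardForm N Ω)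
    {a b : H →L[ℂ] H} (ha : a ∈ N) (hb : b ∈ N) : ‖a (b Ω)‖ ≤ ‖b‖ * ‖a Ω‖ := by
  have h1 : ‖a (b Ω)‖ = ‖star (a * b) Ω‖ := (hN.norm_star (mul_mem ha hb)).symm
  rw [h1, star_mul, ← hN.norm_star ha, ← _root_.norm_star b]
  exact (star b).le_opNorm (star a Ω)

lemma IsStandardForm.exists_right {N : VonNeumannAlgebra H} {Ω : H} (hN : IsStandardForm N Ω)
    {b : H →L[ℂ] H} (hb : b ∈ N) : ∃ R : H →L[ℂ] H, ∀ a ∈ N, R (a Ω) = a (b Ω) := by
  let e : N.toStarSubalgebra →ₗ[ℂ] H :=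
    (ContinuousLinearMap.apply ℂ H Ω).toLinearMap ∘ₗ N.toStarSubalgebra.subtype.toLinearMap
  let f : N.toStarSubalgebra →ₗ[ℂ] H :=
    (ContinuousLinearMap.apply ℂ H (b Ω)).toLinearMap ∘ₗ N.toStarSubalgebra.subtype.toLinearMap
  have hdense : DenseRange e := by
    refine hN.cyclic.mono ?_
    rintro _ ⟨a, ha, rfl⟩
    exact ⟨⟨a, ha⟩, rfl⟩
  refine ⟨f.extendOfNorm e, fun a ha => ?_⟩
  have := LinearMap.extendOfNorm_eq (f := f) (e := e) hdense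
    ⟨‖b‖, fun a => hN.norm_mul_le a.2 hb⟩ ⟨a, ha⟩
  exact this

/-- `R` is right multiplication by the self-adjoint element `b` of `N`. -/
structure IsRight (N : VonNeumannAlgebra H) (Ω : H) (b R : H →L[ℂ] H) : Prop where
  mem : b ∈ N
  sa : IsSelfAdjoint b
  eq : ∀ a ∈ N, R (a Ω) = a (b Ω)

lemma eq_of_dense {N : VonNeumannAlgebra H} {Ω : H} (hN : IsStandardForm N Ω)
    {S T : H →L[ℂ] H} (h : ∀ a ∈ N, S (a Ω) = T (a Ω)) : S = T := by
  have := Continuous.ext_on hN.cyclic S.continuous T.continuous (by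
    rintro _ ⟨a, ha, rfl⟩
    exact h a ha)
  exact ContinuousLinearMap.ext fun ξ => congrFun this ξ

lemma IsRight.selfAdjoint {N : VonNeumannAlgebra H} {Ω : H} (hN : IsStandardForm N Ω)
    {b R : H →L[ℂ] H} (h : IsRight N Ω b R) : IsSelfAdjoint R := by
  rw [ContinuousLinearMap.isSelfAdjoint_iff_isSymmetric]
  -- first on the dense subspace
  have h1 : ∀ a ∈ N, ∀ c ∈ N, ⟪R (a Ω), c Ω⟫_ℂ = ⟪a Ω, R (c Ω)⟫_ℂ := by
    intro a ha c hc
    rw [h.eq a ha, h.eq c hc]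
    have e1 : ⟪a (b Ω), c Ω⟫_ℂ = ⟪Ω, (b * (star a * c)) Ω⟫_ℂ := by
      simp only [mul_apply_eq_comp]
      rw [← inner_star_left b, h.sa.star_eq, inner_star_right]
    have e2 : ⟪a Ω, c (b Ω)⟫_ℂ = ⟪Ω, ((star a * c) * b) Ω⟫_ℂ := by
      simp only [mul_apply_eq_comp]
      rw [inner_star_right]
    rw [e1, e2, hN.tracial b h.mem _ (mul_mem (star_mem ha) hc)]
  have h2 : ∀ a ∈ N, ∀ η : H, ⟪R (a Ω), η⟫_ℂ = ⟪a Ω, R η⟫_ℂ := by
    intro a ha η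
    have := Continuous.ext_on hN.cyclic
      (f := fun η => ⟪R (a Ω), η⟫_ℂ) (g := fun η => ⟪a Ω, R η⟫_ℂ) (by fun_prop) (by fun_prop) (by
        rintro _ ⟨c, hc, rfl⟩
        exact h1 a ha c hc)
    exact congrFun this η
  intro ξ η
  have := Continuous.ext_on hN.cyclic
      (f := fun ξ => ⟪R ξ, η⟫_ℂ) (g := fun ξ => ⟪ξ, R η⟫_ℂ) (by fun_prop) (by fun_prop) (by
        rintro _ ⟨c, hc, rfl⟩
        exact h2 c hc η)
  exact congrFun this ξ

lemma aeval_mem {N : VonNeumannAlgebra H} {b : H →L[ℂ] H} (hb : b ∈ N) (q : ℂ[X]) :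
    Polynomial.aeval b q ∈ N := by
  have : Polynomial.aeval b q ∈ N.toStarSubalgebra.toSubalgebra := by
    have hb' : b ∈ N.toStarSubalgebra.toSubalgebra := hb
    have := Polynomial.aeval_mem_adjoin_singleton ℂ b (p := q)
    exact (Algebra.adjoin_le (by simpa using hb')) this
  exact this

lemma IsRight.aeval_apply {N : VonNeumannAlgebra H} {Ω : H}
    {b R : H →L[ℂ] H} (h : IsRight N Ω b R) (q : ℂ[X]) {a : H →L[ℂ] H} (ha : a ∈ N) :
    Polynomial.aeval R q (a Ω) = a (Polynomial.aeval b q Ω) := by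
  induction q using Polynomial.induction_on with
  | C c => simp [Algebra.algebraMap_eq_smul_one]
  | add p q hp hq => simp only [map_add, add_apply, hp, hq]
  | monomial n c hn =>
    have e : (Polynomial.C c * Polynomial.X ^ (n+1) : ℂ[X])
        = (Polynomial.C c * Polynomial.X ^ n) * Polynomial.X := by ring
    have h1 := h.eq (a * Polynomial.aeval b (Polynomial.C c * Polynomial.X ^ n))
      (mul_mem ha (aeval_mem h.mem _))
    rw [e, aeval_mul_X_apply, hn, map_mul _ _ Polynomial.X, Polynomial.aeval_X]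
    exact h1

lemma IsRight.norm_aeval_le {N : VonNeumannAlgebra H} {Ω : H} (hN : IsStandardForm N Ω)
    {b R : H →L[ℂ] H} (h : IsRight N Ω b R) (q : ℂ[X]) :
    ‖Polynomial.aeval R q‖ ≤ ‖Polynomial.aeval b q‖ := by
  refine ContinuousLinearMap.opNorm_le_bound _ (norm_nonneg _) fun ξ => ?_
  have hcl : IsClosed {ξ : H | ‖Polynomial.aeval R q ξ‖ ≤ ‖Polynomial.aeval b q‖ * ‖ξ‖} :=
    isClosed_le (by fun_prop) (by fun_prop)
  have : ξ ∈ closure ((fun y : H →L[ℂ] H => y Ω) '' (N : Set (H →L[ℂ] H))) := hN.cyclic ξ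
  refine closure_minimal ?_ hcl this
  rintro _ ⟨a, ha, rfl⟩
  simp only [Set.mem_ofPred_eq]
  rw [h.aeval_apply q ha]
  exact hN.norm_mul_le ha (aeval_mem h.mem _)

lemma IsRight.comm {N : VonNeumannAlgebra H} {Ω : H} (hN : IsStandardForm N Ω)
    {b R : H →L[ℂ] H} (h : IsRight N Ω b R) (ξ : H) : R (b ξ) = b (R ξ) := by
  have : R * b = b * R := eq_of_dense hN (by
    intro a ha
    simp only [mul_apply_eq_comp]
    have := h.eq (b * a) (mul_mem h.mem ha)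
    simp only [mul_apply_eq_comp] at this
    rw [this, h.eq a ha])
  exact congrArg (fun T : H →L[ℂ] H => T ξ) this

end Right

section D2

variable {H : Type u} [NormedAddCommGroup H] [InnerProductSpace ℂ H] [CompleteSpace H]

lemma inner_tsmul_right (c : ℂ) (ζ : H ⊗[ℂ] H) (a b : H) :
    ⟪ζ, c • (a ⊗ₜ[ℂ] b)⟫_ℂ = c * ⟪ζ, a ⊗ₜ[ℂ] b⟫_ℂ := by
  rw [TensorProduct.smul_tmul']
  induction ζ using TensorProduct.induction_on with
  | zero => simp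
  | tmul p q => simp [inner_smul_right, mul_assoc]
  | add p q hp hq => simp only [inner_add_left, hp, hq, mul_add]

/-- `D2 p q = ∂^*(p(A) ⊗ q(A))`. -/
noncomputable def D2 (A R : H →L[ℂ] H) (Ω J : H) : ℂ[X] →ₗ[ℂ] ℂ[X] →ₗ[ℂ] H :=
  LinearMap.mk₂ ℂ (fun p q => Polynomial.aeval R q (D1 A Ω J p)
      - Polynomial.aeval A p (Polynomial.aeval A q J - D1 A Ω J q))
    (fun p₁ p₂ q => by simp only [map_add, add_apply]; abel)
    (fun c p q => by simp only [map_smul, smul_apply, smul_sub])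
    (fun p q₁ q₂ => by simp only [map_add, add_apply, map_sub]; abel)
    (fun c p q => by simp only [map_smul, smul_apply, smul_sub, map_sub])

lemma D2_apply (A R : H →L[ℂ] H) (Ω J : H) (p q : ℂ[X]) :
    D2 A R Ω J p q = Polynomial.aeval R q (D1 A Ω J p)
      - Polynomial.aeval A p (Polynomial.aeval A q J - D1 A Ω J q) := rfl

lemma D2_one_right (A R : H →L[ℂ] H) (Ω J : H) (p : ℂ[X]) :
    D2 A R Ω J p 1 = D1 A Ω J p := by
  simp [D2_apply, D1_one]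

lemma R_h {N : VonNeumannAlgebra H} {Ω : H} (hN : IsStandardForm N Ω)
    {A R : H →L[ℂ] H} (h : IsRight N Ω A R) (J : H) (q : ℂ[X]) :
    R (Polynomial.aeval A q J - D1 A Ω J q) = A (Polynomial.aeval A q J - D1 A Ω J q) := by
  induction q using Polynomial.induction_on with
  | C c =>
    have : (Polynomial.C c : ℂ[X]) = c • 1 := by simp [Polynomial.smul_eq_C_mul]
    rw [this, map_smul, map_smul, map_one, D1_one]
    simp
  | add p q hp hq =>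
    have e : Polynomial.aeval A (p + q) J - D1 A Ω J (p + q)
      = (Polynomial.aeval A p J - D1 A Ω J p) + (Polynomial.aeval A q J - D1 A Ω J q) := by
      simp only [map_add, add_apply]; abel
    rw [e, map_add, map_add, hp, hq]
  | monomial n c hn =>
    have e : (Polynomial.C c * Polynomial.X ^ (n+1) : ℂ[X])
        = (Polynomial.C c * Polynomial.X ^ n) * Polynomial.X := by ring
    have e2 : Polynomial.aeval A ((Polynomial.C c * Polynomial.X ^ n) * Polynomial.X) J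
        - D1 A Ω J ((Polynomial.C c * Polynomial.X ^ n) * Polynomial.X)
        = A (Polynomial.aeval A (Polynomial.C c * Polynomial.X ^ n) J
          - D1 A Ω J (Polynomial.C c * Polynomial.X ^ n))
          + tau A Ω (Polynomial.C c * Polynomial.X ^ n) • Ω := by
      rw [aeval_mul_X_apply, D1_mul_X, map_sub]; abel
    have e3 : R Ω = A Ω := by
      have := h.eq 1 (one_mem N)
      simpa using this
    rw [e, e2, map_add, map_add, h.comm hN, hn, map_smul, map_smul, e3]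

lemma D2_mul_X {N : VonNeumannAlgebra H} {Ω : H} (hN : IsStandardForm N Ω)
    {A R : H →L[ℂ] H} (h : IsRight N Ω A R) (J : H) (p q : ℂ[X]) :
    D2 A R Ω J p (q * Polynomial.X)
      = R (D2 A R Ω J p q) - tau A Ω q • Polynomial.aeval A p Ω := by
  have hc : ∀ (p : ℂ[X]) (ξ : H), R (Polynomial.aeval A p ξ) = Polynomial.aeval A p (R ξ) := by
    intro p ξ
    induction p using Polynomial.induction_on with
    | C c => simp [Algebra.algebraMap_eq_smul_one]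
    | add p q hp hq => simp only [map_add, add_apply, hp, hq]
    | monomial n c hn =>
      have e : (Polynomial.C c * Polynomial.X ^ (n+1) : ℂ[X])
          = (Polynomial.C c * Polynomial.X ^ n) * Polynomial.X := by ring
      rw [e, aeval_mul_X_apply, aeval_mul_X_apply, h.comm hN, hn]
  have e2 : Polynomial.aeval A (q * Polynomial.X) J - D1 A Ω J (q * Polynomial.X)
        = A (Polynomial.aeval A q J - D1 A Ω J q) + tau A Ω q • Ω := by
      rw [aeval_mul_X_apply, D1_mul_X, map_sub]; abel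
  rw [D2_apply, D2_apply, aeval_mul_X_apply, e2, map_sub R, hc, R_h hN h, map_add, map_smul]
  abel

/-- `p(A)Ω ⊗ q(A)Ω ∈ D(∂_i^*)` with `∂_i^*(p(A)Ω ⊗ q(A)Ω) = D2 p q`. -/
lemma adj₀_D2 {N : VonNeumannAlgebra H} {Ω : H} (hN : IsStandardForm N Ω) {m : ℕ}
    {x : Fin m → H →L[ℂ] H} (hxN : ∀ j, x j ∈ N) {i : Fin m} {R : H →L[ℂ] H}
    (h : IsRight N Ω (x i) R) {J : H} (hJ : Adj₀ x Ω i (Ω ⊗ₜ Ω) J) (p q : ℂ[X]) :
    Adj₀ x Ω i ((Polynomial.aeval (x i) p Ω) ⊗ₜ (Polynomial.aeval (x i) q Ω))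
      (D2 (x i) R Ω J p q) := by
  have hev : ∀ P : NCPoly m, ev x P ∈ N := by
    intro P
    induction P using FreeAlgebra.induction with
    | grade0 r => 
      rw [AlgHom.commutes]
      exact algebraMap_mem N.toStarSubalgebra r
    | grade1 j => rw [ev_ι]; exact hxN j
    | mul a b ha hb => rw [map_mul]; exact mul_mem ha hb
    | add a b ha hb => rw [map_add]; exact add_mem ha hb
  have hR : ∀ P : NCPoly m, R (vec x Ω P) = vec x Ω (P * FreeAlgebra.ι ℂ i) := by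
    intro P
    rw [vec_mul, vec_apply, h.eq _ (hev P), vec_apply, ev_ι]
  have h1 : ∀ p : ℂ[X], Adj₀ x Ω i ((Polynomial.aeval (x i) p Ω) ⊗ₜ Ω) (D1 (x i) Ω J p) := by
    intro p
    induction p using Polynomial.induction_on with
    | C c =>
      intro Q
      have : (Polynomial.C c : ℂ[X]) = c • 1 := by simp [Polynomial.smul_eq_C_mul]
      have e5 : (c • (1 : H →L[ℂ] H)) Ω = c • Ω := rfl
      rw [this, map_smul, map_smul, map_one, D1_one, inner_smul_right, ← hJ Q, e5,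
        ← TensorProduct.smul_tmul', inner_tsmul_right]
    | add p q hp hq =>
      intro Q
      rw [map_add, map_add, add_apply, TensorProduct.add_tmul, inner_add_right, inner_add_right,
        hp Q, hq Q]
    | monomial n c hn =>
      have e : (Polynomial.C c * Polynomial.X ^ (n+1) : ℂ[X])
          = (Polynomial.C c * Polynomial.X ^ n) * Polynomial.X := by ring
      rw [e, aeval_mul_X_apply, D1_mul_X]
      exact hn.left h.sa
  induction q using Polynomial.induction_on with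
  | C c =>
    intro Q
    have : (Polynomial.C c : ℂ[X]) = c • 1 := by simp [Polynomial.smul_eq_C_mul]
    have e5 : (c • (1 : H →L[ℂ] H)) Ω = c • Ω := rfl
    rw [this, map_smul, map_smul, D2_one_right, map_one, inner_smul_right, ← h1 p Q, e5,
      TensorProduct.tmul_smul, inner_tsmul_right]
  | add q₁ q₂ hp hq =>
    intro Q
    rw [map_add, map_add, add_apply, TensorProduct.tmul_add, inner_add_right, inner_add_right,
      hp Q, hq Q]
  | monomial n c hn =>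
    have e : (Polynomial.C c * Polynomial.X ^ (n+1) : ℂ[X])
        = (Polynomial.C c * Polynomial.X ^ n) * Polynomial.X := by ring
    have e4 : Polynomial.aeval (x i) (Polynomial.C c * Polynomial.X ^ n * Polynomial.X) Ω
        = R (Polynomial.aeval (x i) (Polynomial.C c * Polynomial.X ^ n) Ω) := by
      rw [h.eq _ (aeval_mem h.mem _), map_mul, Polynomial.aeval_X, mul_apply_eq_comp]
    rw [e, D2_mul_X hN h, e4]
    exact hn.right (h.selfAdjoint hN) hR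

end D2

section PBound

variable {H : Type u} [NormedAddCommGroup H] [InnerProductSpace ℂ H] [CompleteSpace H]

lemma norm_D2_le {N : VonNeumannAlgebra H} {Ω : H} (hN : IsStandardForm N Ω)
    {A R : H →L[ℂ] H} (h : IsRight N Ω A R) (J : H)
    (hort : ∀ p, ⟪Ω, D1 A Ω J p⟫_ℂ = 0) (p q : ℂ[X]) :
    ‖D2 A R Ω J p q‖ ≤ (3 * ‖J‖) * (‖Polynomial.aeval A p‖ * ‖Polynomial.aeval A q‖) := by
  rw [D2_apply]
  have h1 : ‖Polynomial.aeval R q (D1 A Ω J p)‖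
      ≤ ‖Polynomial.aeval A q‖ * (‖J‖ * ‖Polynomial.aeval A p‖) :=
    (ContinuousLinearMap.le_opNorm _ _).trans (mul_le_mul (h.norm_aeval_le hN q)
      (norm_D1_le A h.sa Ω J hN.norm_one hort p) (norm_nonneg _) (norm_nonneg _))
  have h2 : ‖Polynomial.aeval A p (Polynomial.aeval A q J - D1 A Ω J q)‖
      ≤ ‖Polynomial.aeval A p‖ * (‖Polynomial.aeval A q‖ * ‖J‖ + ‖J‖ * ‖Polynomial.aeval A q‖) := by
    refine (ContinuousLinearMap.le_opNorm _ _).trans ?_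
    gcongr
    refine (norm_sub_le _ _).trans ?_
    gcongr
    · exact ContinuousLinearMap.le_opNorm _ _
    · exact norm_D1_le A h.sa Ω J hN.norm_one hort q
  refine (norm_sub_le _ _).trans ((add_le_add h1 h2).trans (le_of_eq ?_))
  ring

/-- `ζ` has projective tensor norm at most `r`. -/
def PB (A : H →L[ℂ] H) (ζ : ℂ[X] ⊗[ℂ] ℂ[X]) (r : ℝ) : Prop :=
  ∀ (V : Type u) [NormedAddCommGroup V] [NormedSpace ℂ V] (β : ℂ[X] →ₗ[ℂ] ℂ[X] →ₗ[ℂ] V) (C : ℝ),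
    0 ≤ C → (∀ p q, ‖β p q‖ ≤ C * (‖Polynomial.aeval A p‖ * ‖Polynomial.aeval A q‖)) →
    ‖TensorProduct.lift β ζ‖ ≤ C * r

lemma PB.tmul (A : H →L[ℂ] H) (p q : ℂ[X]) :
    PB A (p ⊗ₜ q) (‖Polynomial.aeval A p‖ * ‖Polynomial.aeval A q‖) := by
  intro V _ _ β C _ h
  rw [TensorProduct.lift.tmul]
  exact h p q

lemma PB.zero (A : H →L[ℂ] H) : PB A 0 0 := by
  intro V _ _ β C _ h
  simp

lemma PB.mono {A : H →L[ℂ] H} {ζ : ℂ[X] ⊗[ℂ] ℂ[X]} {r r' : ℝ} (h : PB A ζ r) (hr : r ≤ r') :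
    PB A ζ r' := by
  intro V _ _ β C hC hβ
  exact (h V β C hC hβ).trans (by gcongr)

lemma PB.add {A : H →L[ℂ] H} {ζ ζ' : ℂ[X] ⊗[ℂ] ℂ[X]} {r r' : ℝ} (h : PB A ζ r) (h' : PB A ζ' r') :
    PB A (ζ + ζ') (r + r') := by
  intro V _ _ β C hC hβ
  rw [map_add, mul_add]
  exact (norm_add_le _ _).trans (add_le_add (h V β C hC hβ) (h' V β C hC hβ))

lemma PB.smul {A : H →L[ℂ] H} {ζ : ℂ[X] ⊗[ℂ] ℂ[X]} {r : ℝ} (c : ℂ) (h : PB A ζ r) :
    PB A (c • ζ) (‖c‖ * r) := by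
  intro V _ _ β C hC hβ
  rw [map_smul, norm_smul]
  have := h V β C hC hβ
  calc ‖c‖ * ‖TensorProduct.lift β ζ‖ ≤ ‖c‖ * (C * r) := by gcongr
    _ = _ := by ring

lemma PB.neg {A : H →L[ℂ] H} {ζ : ℂ[X] ⊗[ℂ] ℂ[X]} {r : ℝ} (h : PB A ζ r) :
    PB A (-ζ) r := by
  intro V _ _ β C hC hβ
  rw [map_neg, norm_neg]
  exact h V β C hC hβ

lemma PB.sub {A : H →L[ℂ] H} {ζ ζ' : ℂ[X] ⊗[ℂ] ℂ[X]} {r r' : ℝ} (h : PB A ζ r) (h' : PB A ζ' r') :
    PB A (ζ - ζ') (r + r') := by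
  rw [sub_eq_add_neg]
  exact h.add h'.neg

lemma PB.sum {A : H →L[ℂ] H} {ι : Type*} (s : Finset ι) (ζ : ι → ℂ[X] ⊗[ℂ] ℂ[X]) (r : ι → ℝ)
    (h : ∀ i ∈ s, PB A (ζ i) (r i)) : PB A (∑ i ∈ s, ζ i) (∑ i ∈ s, r i) := by
  classical
  induction s using Finset.induction_on with
  | empty => simpa using PB.zero A
  | insert a s ha ih =>
    rw [Finset.sum_insert ha, Finset.sum_insert ha]
    exact (h a (Finset.mem_insert_self _ _)).add
      (ih fun i hi => h i (Finset.mem_insert_of_mem hi))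

lemma lift_bimul {V : Type u} [NormedAddCommGroup V] [NormedSpace ℂ V]
    (β : ℂ[X] →ₗ[ℂ] ℂ[X] →ₗ[ℂ] V) (p q : ℂ[X]) (ζ : ℂ[X] ⊗[ℂ] ℂ[X]) :
    TensorProduct.lift β ((p ⊗ₜ[ℂ] 1) * ζ * (1 ⊗ₜ[ℂ] q))
      = TensorProduct.lift ((β.comp (LinearMap.mulLeft ℂ p)).compl₂ (LinearMap.mulRight ℂ q)) ζ := by
  induction ζ using TensorProduct.induction_on with
  | zero => simp
  | tmul a b => simp
  | add a b ha hb => simp only [mul_add, add_mul, map_add, ha, hb]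

lemma PB.bimul {A : H →L[ℂ] H} {ζ : ℂ[X] ⊗[ℂ] ℂ[X]} {r : ℝ} (h : PB A ζ r) (p q : ℂ[X]) :
    PB A ((p ⊗ₜ[ℂ] 1) * ζ * (1 ⊗ₜ[ℂ] q))
      (‖Polynomial.aeval A p‖ * ‖Polynomial.aeval A q‖ * r) := by
  intro V _ _ β C hC hβ
  rw [lift_bimul]
  have := h V ((β.comp (LinearMap.mulLeft ℂ p)).compl₂ (LinearMap.mulRight ℂ q))
    (C * (‖Polynomial.aeval A p‖ * ‖Polynomial.aeval A q‖)) (by positivity) (by
      intro a b
      simp only [LinearMap.compl₂_apply, LinearMap.comp_apply, LinearMap.mulLeft_apply,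
        LinearMap.mulRight_apply]
      refine (hβ _ _).trans ?_
      rw [map_mul, map_mul]
      calc C * (‖Polynomial.aeval A p * Polynomial.aeval A a‖
            * ‖Polynomial.aeval A b * Polynomial.aeval A q‖)
          ≤ C * ((‖Polynomial.aeval A p‖ * ‖Polynomial.aeval A a‖)
            * (‖Polynomial.aeval A b‖ * ‖Polynomial.aeval A q‖)) := by
            gcongr <;> exact norm_mul_le _ _
        _ = _ := by ring)
  refine this.trans (le_of_eq ?_)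
  ring

lemma norm_aeval_pow_le (A : H →L[ℂ] H) (p : ℂ[X]) (n : ℕ) :
    ‖Polynomial.aeval A (p ^ n)‖ ≤ ‖Polynomial.aeval A p‖ ^ n := by
  rcases n with _ | n
  · simp only [pow_zero, map_one]
    exact ContinuousLinearMap.norm_id_le
  · rw [map_pow]; exact norm_pow_le' _ (Nat.succ_pos n)

lemma dq_pow (U : ℂ[X]) (n : ℕ) :
    dq (U ^ n) = ∑ k ∈ Finset.range n, ((U ^ k) ⊗ₜ[ℂ] 1) * dq U * (1 ⊗ₜ[ℂ] (U ^ (n - 1 - k))) := by
  induction n with
  | zero => simp [dq_one]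
  | succ n ih =>
    rw [pow_succ, dq_mul, ih, Finset.sum_range_succ, Finset.sum_mul, add_comm]
    congr 1
    · apply Finset.sum_congr rfl
      intro k hk
      have hk' : k < n := Finset.mem_range.mp hk
      have e : n + 1 - 1 - k = (n - 1 - k) + 1 := by omega
      rw [e, pow_succ, mul_assoc, mul_assoc, mul_assoc]
      congr 2
      simp
    · rw [show n + 1 - 1 - n = 0 by omega, pow_zero, ← Algebra.TensorProduct.one_def, mul_one]

/-- bound for `dq (X^n)` -/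
lemma PB_dq_X_pow (A : H →L[ℂ] H) (n : ℕ) :
    PB A (dq (Polynomial.X ^ n)) (n * ‖A‖ ^ (n - 1)) := by
  rw [dq_pow]
  have h := PB.sum (A := A) (Finset.range n)
    (fun k => (((Polynomial.X : ℂ[X]) ^ k) ⊗ₜ[ℂ] 1) * dq Polynomial.X
      * (1 ⊗ₜ[ℂ] ((Polynomial.X : ℂ[X]) ^ (n - 1 - k)))) (fun k => ‖A‖ ^ (n - 1)) (by
      intro k hk
      have hk' : k < n := Finset.mem_range.mp hk
      rw [dq_X]
      refine ((PB.tmul A 1 1).bimul _ _).mono ?_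
      have h1 := norm_aeval_pow_le A Polynomial.X k
      have h2 := norm_aeval_pow_le A Polynomial.X (n - 1 - k)
      rw [Polynomial.aeval_X] at h1 h2
      have h3 : ‖Polynomial.aeval A (1 : ℂ[X])‖ ≤ 1 := by
        rw [map_one]; exact ContinuousLinearMap.norm_id_le
      calc ‖Polynomial.aeval A (Polynomial.X ^ k)‖ * ‖Polynomial.aeval A (Polynomial.X ^ (n - 1 - k))‖ *
          (‖Polynomial.aeval A (1 : ℂ[X])‖ * ‖Polynomial.aeval A (1 : ℂ[X])‖)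
          ≤ ‖A‖ ^ k * ‖A‖ ^ (n - 1 - k) * (1 * 1) := by gcongr
        _ = ‖A‖ ^ (n - 1) := by
          rw [← pow_add, mul_one, mul_one]; congr 1; omega)
  simpa using h

/-- the Neumann polynomials approximating `(A - z)⁻¹`. -/
noncomputable def Gpoly (z : ℂ) (N : ℕ) : ℂ[X] :=
  -∑ j ∈ Finset.range (N + 1), (z⁻¹ ^ (j + 1)) • (Polynomial.X : ℂ[X]) ^ j

lemma X_sub_mul_Gpoly (z : ℂ) (hz : z ≠ 0) (N : ℕ) :
    (Polynomial.X - Polynomial.C z) * Gpoly z N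
      = 1 - (z⁻¹ ^ (N + 1)) • (Polynomial.X : ℂ[X]) ^ (N + 1) := by
  induction N with
  | zero =>
    simp only [Gpoly, zero_add, Finset.range_one, Finset.sum_singleton, pow_one, pow_zero,
      Polynomial.smul_eq_C_mul]
    have : (Polynomial.C z * Polynomial.C z⁻¹ : ℂ[X]) = 1 := by
      rw [← Polynomial.C_mul, mul_inv_cancel₀ hz, Polynomial.C_1]
    linear_combination this
  | succ N ih =>
    have e : Gpoly z (N + 1) = Gpoly z N - (z⁻¹ ^ (N + 2)) • (Polynomial.X : ℂ[X]) ^ (N + 1) := by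
      simp only [Gpoly]
      rw [Finset.sum_range_succ _ (N + 1)]
      abel
    rw [e, mul_sub, ih]
    have : (Polynomial.C z * Polynomial.C (z⁻¹ ^ (N + 2)) : ℂ[X]) = Polynomial.C (z⁻¹ ^ (N + 1)) := by
      rw [← Polynomial.C_mul, pow_succ' _ (N + 1), ← mul_assoc, mul_inv_cancel₀ hz, one_mul]
    simp only [Polynomial.smul_eq_C_mul]
    linear_combination (Polynomial.X ^ (N + 1) : ℂ[X]) * this

lemma norm_aeval_one_le (A : H →L[ℂ] H) : ‖Polynomial.aeval A (1 : ℂ[X])‖ ≤ 1 := by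
  rw [map_one]; exact ContinuousLinearMap.norm_id_le

lemma dq_Gpoly (z : ℂ) (hz : z ≠ 0) (N : ℕ) :
    dq (Gpoly z N) + Gpoly z N ⊗ₜ[ℂ] Gpoly z N
      = (((z⁻¹ ^ (N + 1)) • (Polynomial.X : ℂ[X]) ^ (N + 1)) ⊗ₜ[ℂ] 1) * dq (Gpoly z N)
        * (1 ⊗ₜ[ℂ] 1)
        - (Gpoly z N ⊗ₜ[ℂ] 1) * dq ((z⁻¹ ^ (N + 1)) • (Polynomial.X : ℂ[X]) ^ (N + 1))
        * (1 ⊗ₜ[ℂ] 1) := by
  have h1 := congrArg dq (X_sub_mul_Gpoly z hz N)
  have hC : (Polynomial.C z : ℂ[X]) = z • 1 := by simp [Polynomial.smul_eq_C_mul]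
  rw [dq_mul, map_sub, map_sub, dq_one, dq_X, hC, map_smul, dq_one, smul_zero, sub_zero,
    ← Algebra.TensorProduct.one_def, one_mul, zero_sub] at h1
  have h2 := congrArg (fun ζ => (Gpoly z N ⊗ₜ[ℂ] (1 : ℂ[X])) * ζ) h1
  simp only [mul_add] at h2
  have h3 : (Gpoly z N ⊗ₜ[ℂ] (1 : ℂ[X])) * (((Polynomial.X - z • 1 : ℂ[X]) ⊗ₜ[ℂ] (1 : ℂ[X]))
      * dq (Gpoly z N))
      = dq (Gpoly z N) - (((z⁻¹ ^ (N + 1)) • (Polynomial.X : ℂ[X]) ^ (N + 1)) ⊗ₜ[ℂ] 1)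
        * dq (Gpoly z N) := by
    rw [← mul_assoc, Algebra.TensorProduct.tmul_mul_tmul, mul_comm (Gpoly z N), ← hC,
      X_sub_mul_Gpoly z hz, TensorProduct.sub_tmul, sub_mul, mul_one,
      ← Algebra.TensorProduct.one_def, one_mul]
  have h4 : (Gpoly z N ⊗ₜ[ℂ] (1 : ℂ[X])) * ((1 : ℂ[X]) ⊗ₜ[ℂ] Gpoly z N)
      = Gpoly z N ⊗ₜ[ℂ] Gpoly z N := by
    rw [Algebra.TensorProduct.tmul_mul_tmul, mul_one, one_mul]
  rw [h3, h4] at h2
  rw [← Algebra.TensorProduct.one_def, mul_one, mul_one]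
  linear_combination h2

/-- the projective norm of the remainder. -/
noncomputable def delta (A : H →L[ℂ] H) (z : ℂ) (N : ℕ) : ℝ :=
  (‖z‖⁻¹ * ‖A‖) ^ (N + 1) * ((N + 1) ^ 2 * ‖z‖⁻¹ ^ 2)
    + ‖Polynomial.aeval A (Gpoly z N)‖ * (‖z‖⁻¹ * ((N + 1) * (‖z‖⁻¹ * ‖A‖) ^ N))

lemma PB_dq_Gpoly_add (A : H →L[ℂ] H) (z : ℂ) (hz : ‖A‖ < ‖z‖) (N : ℕ) :
    PB A (dq (Gpoly z N) + Gpoly z N ⊗ₜ[ℂ] Gpoly z N) (delta A z N) := by
  have hz0 : 0 < ‖z‖ := (norm_nonneg A).trans_lt hz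
  have hz' : z ≠ 0 := norm_pos_iff.mp hz0
  have hρ : ‖z‖⁻¹ * ‖A‖ ≤ 1 := by
    rw [inv_mul_le_iff₀ hz0, mul_one]; exact hz.le
  -- bound for dq G
  have hG : PB A (dq (Gpoly z N)) ((N + 1) ^ 2 * ‖z‖⁻¹ ^ 2) := by
    have e : dq (Gpoly z N) = -∑ j ∈ Finset.range (N + 1), (z⁻¹ ^ (j + 1)) •
        dq ((Polynomial.X : ℂ[X]) ^ j) := by
      simp [Gpoly, map_sum]
    rw [e]
    refine (PB.neg (PB.sum _ _ _ fun j _ => (PB_dq_X_pow A j).smul (z⁻¹ ^ (j + 1)))).mono ?_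
    have h1 : ∀ j ∈ Finset.range (N + 1), ‖z⁻¹ ^ (j + 1)‖ * (j * ‖A‖ ^ (j - 1))
        ≤ (N + 1) * ‖z‖⁻¹ ^ 2 := by
      intro j hj
      have hj' : j < N + 1 := Finset.mem_range.mp hj
      rcases j with _ | j
      · simp; positivity
      · rw [norm_pow, norm_inv, Nat.add_sub_cancel]
        have h2 : ((j + 1 : ℕ) : ℝ) ≤ N + 1 := by exact_mod_cast hj'.le
        calc ‖z‖⁻¹ ^ (j + 1 + 1) * (((j + 1 : ℕ) : ℝ) * ‖A‖ ^ j)
            = ((j + 1 : ℕ) : ℝ) * ‖z‖⁻¹ ^ 2 * (‖z‖⁻¹ * ‖A‖) ^ j := by ring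
          _ ≤ (N + 1) * ‖z‖⁻¹ ^ 2 * 1 := by
              gcongr
              exact pow_le_one₀ (by positivity) hρ
          _ = _ := by ring
    calc ∑ j ∈ Finset.range (N + 1), ‖z⁻¹ ^ (j + 1)‖ * (j * ‖A‖ ^ (j - 1))
        ≤ ∑ j ∈ Finset.range (N + 1), ((N : ℝ) + 1) * ‖z‖⁻¹ ^ 2 := Finset.sum_le_sum h1
      _ = _ := by
        rw [Finset.sum_const, Finset.card_range, nsmul_eq_mul]; push_cast; ring
  have h1A := norm_aeval_one_le A
  rw [dq_Gpoly z hz' N]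
  refine ((hG.bimul _ _).sub (PB.bimul (r := ‖z⁻¹ ^ (N + 1)‖ * ((N + 1 : ℕ) * ‖A‖ ^ (N + 1 - 1))) (by
    rw [map_smul]
    exact (PB_dq_X_pow A (N + 1)).smul _) _ _)).mono ?_
  rw [delta]
  have h2 : ‖Polynomial.aeval A ((z⁻¹ ^ (N + 1)) • (Polynomial.X : ℂ[X]) ^ (N + 1))‖
      ≤ (‖z‖⁻¹ * ‖A‖) ^ (N + 1) := by
    rw [map_smul, norm_smul, norm_pow, norm_inv, mul_pow]
    gcongr
    have := norm_aeval_pow_le A Polynomial.X (N + 1)
    rwa [Polynomial.aeval_X] at this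
  have h3 : ‖z⁻¹ ^ (N + 1)‖ * (((N + 1 : ℕ) : ℝ) * ‖A‖ ^ (N + 1 - 1))
      = ‖z‖⁻¹ * ((N + 1) * (‖z‖⁻¹ * ‖A‖) ^ N) := by
    rw [norm_pow, norm_inv, Nat.add_sub_cancel]; push_cast; ring
  rw [h3]
  calc _ ≤ (‖z‖⁻¹ * ‖A‖) ^ (N + 1) * 1 * ((N + 1) ^ 2 * ‖z‖⁻¹ ^ 2)
        + ‖Polynomial.aeval A (Gpoly z N)‖ * 1 * (‖z‖⁻¹ * ((N + 1) * (‖z‖⁻¹ * ‖A‖) ^ N)) := by
          gcongr
    _ = _ := by ring

/-- the Cayley polynomials. -/
noncomputable def Upoly (z : ℂ) (N : ℕ) : ℂ[X] := 1 + (z - starRingEnd ℂ z) • Gpoly z N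

lemma PB_dq_Upoly_pow (A : H →L[ℂ] H) (z : ℂ) (hz : ‖A‖ < ‖z‖) (N n : ℕ) :
    PB A (dq (Upoly z N ^ n) + (z - starRingEnd ℂ z) • ∑ k ∈ Finset.range n,
        (Upoly z N ^ k * Gpoly z N) ⊗ₜ[ℂ] (Gpoly z N * Upoly z N ^ (n - 1 - k)))
      (‖z - starRingEnd ℂ z‖ * (n * (‖Polynomial.aeval A (Upoly z N)‖ ^ (n - 1) * delta A z N))) := by
  have e : dq (Upoly z N ^ n) + (z - starRingEnd ℂ z) • ∑ k ∈ Finset.range n,
        (Upoly z N ^ k * Gpoly z N) ⊗ₜ[ℂ] (Gpoly z N * Upoly z N ^ (n - 1 - k))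
      = (z - starRingEnd ℂ z) • ∑ k ∈ Finset.range n, ((Upoly z N ^ k) ⊗ₜ[ℂ] 1) *
        (dq (Gpoly z N) + Gpoly z N ⊗ₜ[ℂ] Gpoly z N) * (1 ⊗ₜ[ℂ] (Upoly z N ^ (n - 1 - k))) := by
    rw [dq_pow, Finset.smul_sum, Finset.smul_sum, ← Finset.sum_add_distrib]
    apply Finset.sum_congr rfl
    intro k _
    have h1 : dq (Upoly z N) = (z - starRingEnd ℂ z) • dq (Gpoly z N) := by
      rw [Upoly, map_add, dq_one, zero_add, map_smul]
    rw [h1, mul_smul_comm, smul_mul_assoc, ← smul_add]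
    congr 1
    rw [mul_add, add_mul]
    congr 1
    rw [Algebra.TensorProduct.tmul_mul_tmul, Algebra.TensorProduct.tmul_mul_tmul, one_mul, mul_one]
  rw [e]
  have hδ : 0 ≤ delta A z N := by rw [delta]; positivity
  refine (PB.smul _ (PB.sum _ _ (fun _ => ‖Polynomial.aeval A (Upoly z N)‖ ^ (n - 1)
    * delta A z N) fun k hk => ?_)).mono (le_of_eq ?_)
  · have hk' : k < n := Finset.mem_range.mp hk
    refine ((PB_dq_Gpoly_add A z hz N).bimul _ _).mono ?_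
    calc ‖Polynomial.aeval A (Upoly z N ^ k)‖ * ‖Polynomial.aeval A (Upoly z N ^ (n - 1 - k))‖
          * delta A z N
        ≤ ‖Polynomial.aeval A (Upoly z N)‖ ^ k * ‖Polynomial.aeval A (Upoly z N)‖ ^ (n - 1 - k)
          * delta A z N := by
          gcongr <;> exact norm_aeval_pow_le _ _ _
      _ = _ := by
          rw [← pow_add]; congr 2; omega
  · rw [Finset.sum_const, Finset.card_range, nsmul_eq_mul]

end PBound

section Semigroup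

variable {H : Type u} [NormedAddCommGroup H] [InnerProductSpace ℂ H] [CompleteSpace H]

lemma sa_inner {T : H →L[ℂ] H} (h : IsSelfAdjoint T) (a b : H) : ⟪T a, b⟫_ℂ = ⟪a, T b⟫_ℂ := by
  rw [← inner_star_left, h.star_eq]

lemma semigroup_ineq_aux (φ : ℝ → H →L[ℂ] H) (h0 : φ 0 = 1)
    (hadd : ∀ s t, 0 ≤ s → 0 ≤ t → φ (s + t) = φ s * φ t)
    (hsa : ∀ t, 0 ≤ t → IsSelfAdjoint (φ t)) (y : H) (t : ℝ) (ht : 0 < t) (n : ℕ) (hn : 0 < n) :
    (⟪y - φ (t / n) y, φ t y⟫_ℂ).re * n ≤ ‖y‖ ^ 2 := by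
  set h : ℝ := t / n with hh
  have hn' : (0 : ℝ) < n := by exact_mod_cast hn
  have hpos : 0 < h := by positivity
  have hkh : ∀ k : ℕ, 0 ≤ (k : ℝ) * h := fun k => by positivity
  have hsq : ∀ s : ℝ, 0 ≤ s → ∀ ξ : H, ⟪φ s ξ, ξ⟫_ℂ = (‖φ (s / 2) ξ‖ ^ 2 : ℝ) := by
    intro s hs ξ
    have h1 : φ s = φ (s / 2) * φ (s / 2) := by
      rw [← hadd _ _ (by positivity) (by positivity)]; congr 1; ring
    rw [h1, mul_apply_eq_comp, sa_inner (hsa _ (by positivity)), inner_self_eq_norm_sq_to_K]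
    norm_cast
  let a : ℕ → ℝ := fun k => (⟪φ (k * h) y, y⟫_ℂ).re
  have ha : ∀ k : ℕ, 0 ≤ a k := by
    intro k
    simp only [a]
    rw [hsq _ (hkh k)]
    simp only [Complex.ofReal_re]
    positivity
  have hconv : ∀ k : ℕ, a (k + 1) - a (k + 2) ≤ a k - a (k + 1) := by
    intro k
    have h1 := hsq _ (hkh k) (y - φ h y)
    have e1 : φ (((k + 1 : ℕ) : ℝ) * h) = φ (k * h) * φ h := by
      rw [← hadd _ _ (hkh k) hpos.le]; congr 1; push_cast; ring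
    have e2 : φ (((k + 2 : ℕ) : ℝ) * h) = φ h * (φ (k * h) * φ h) := by
      rw [← hadd _ _ (hkh k) hpos.le, ← hadd _ _ hpos.le (by positivity)]
      congr 1; push_cast; ring
    have e3 : φ (((k + 1 : ℕ) : ℝ) * h) = φ h * φ (k * h) := by
      rw [← hadd _ _ hpos.le (hkh k)]; congr 1; push_cast; ring
    have h2 : ⟪φ (k * h) (y - φ h y), y - φ h y⟫_ℂ
        = ⟪φ (k * h) y, y⟫_ℂ - ⟪φ (((k + 1 : ℕ) : ℝ) * h) y, y⟫_ℂ
          - (⟪φ (((k + 1 : ℕ) : ℝ) * h) y, y⟫_ℂ - ⟪φ (((k + 2 : ℕ) : ℝ) * h) y, y⟫_ℂ) := by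
      rw [map_sub, inner_sub_left, inner_sub_right, inner_sub_right]
      have e4 : ⟪φ (k * h) y, φ h y⟫_ℂ = ⟪φ (((k + 1 : ℕ) : ℝ) * h) y, y⟫_ℂ := by
        rw [e3, mul_apply_eq_comp, sa_inner (hsa _ hpos.le)]
      have e5 : ⟪φ (k * h) (φ h y), y⟫_ℂ = ⟪φ (((k + 1 : ℕ) : ℝ) * h) y, y⟫_ℂ := by
        rw [e1, mul_apply_eq_comp]
      have e6 : ⟪φ (k * h) (φ h y), φ h y⟫_ℂ = ⟪φ (((k + 2 : ℕ) : ℝ) * h) y, y⟫_ℂ := by
        rw [e2, mul_apply_eq_comp, mul_apply_eq_comp, sa_inner (hsa _ hpos.le)]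
      rw [e4, e5, e6]
    rw [h2] at h1
    have h3 := congrArg Complex.re h1
    simp only [Complex.sub_re, Complex.ofReal_re] at h3
    have h4 : (0 : ℝ) ≤ ‖φ (k * h / 2) (y - φ h y)‖ ^ 2 := by positivity
    simp only [a]
    linarith
  have hanti : Antitone fun k => a k - a (k + 1) := antitone_nat_of_succ_le hconv
  have hsum : ∑ k ∈ Finset.range n, (a k - a (k + 1)) = a 0 - a n := Finset.sum_range_sub' _ _
  have hle : (n : ℝ) * (a n - a (n + 1)) ≤ a 0 - a n := by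
    rw [← hsum]
    calc (n : ℝ) * (a n - a (n + 1)) = ∑ k ∈ Finset.range n, (a n - a (n + 1)) := by
          rw [Finset.sum_const, Finset.card_range, nsmul_eq_mul]
      _ ≤ _ := Finset.sum_le_sum fun k hk => hanti (Finset.mem_range.mp hk).le
  have ha0 : a 0 = ‖y‖ ^ 2 := by
    simp only [a, Nat.cast_zero, zero_mul, h0, one_apply_eq_self]
    rw [inner_self_eq_norm_sq_to_K]
    norm_cast
  have hnh : (n : ℝ) * h = t := by rw [hh]; field_simp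
  have hd : a n - a (n + 1) = (⟪y - φ h y, φ t y⟫_ℂ).re := by
    have e1 : φ (((n + 1 : ℕ) : ℝ) * h) = φ t * φ h := by
      rw [← hadd _ _ ht.le hpos.le]; congr 1; push_cast; rw [← hnh]; ring
    simp only [a]
    rw [e1, hnh, inner_sub_left, ← sa_inner (hsa _ ht.le), ← sa_inner (hsa _ ht.le)]
    simp
  rw [← hd]
  have := ha n
  nlinarith

lemma semigroup_ineq (φ : ℝ → H →L[ℂ] H) (h0 : φ 0 = 1)
    (hadd : ∀ s t, 0 ≤ s → 0 ≤ t → φ (s + t) = φ s * φ t)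
    (hsa : ∀ t, 0 ≤ t → IsSelfAdjoint (φ t)) (y w : H)
    (hgen : Tendsto (fun h : ℝ => (h⁻¹ : ℝ) • (y - φ h y)) (𝓝[>] 0) (𝓝 w))
    (t : ℝ) (ht : 0 < t) :
    (⟪w, y⟫_ℂ).re ≤ ‖w‖ * ‖y - φ t y‖ + ‖y‖ ^ 2 / t := by
  have hseq : Tendsto (fun n : ℕ => t / ((n + 1 : ℕ) : ℝ)) atTop (𝓝[>] 0) := by
    rw [tendsto_nhdsWithin_iff]
    refine ⟨?_, Filter.Eventually.of_forall fun n => ?_⟩
    · exact (tendsto_const_div_atTop_nhds_zero_nat t).comp (tendsto_add_atTop_nat 1)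
    · have : (0 : ℝ) < ((n + 1 : ℕ) : ℝ) := by positivity
      exact div_pos ht this
  have h1 := hgen.comp hseq
  have h2 : Tendsto (fun n : ℕ => (⟪((t / ((n + 1 : ℕ) : ℝ))⁻¹ : ℝ) •
      (y - φ (t / ((n + 1 : ℕ) : ℝ)) y), φ t y⟫_ℂ).re) atTop (𝓝 (⟪w, φ t y⟫_ℂ).re) :=
    (Complex.continuous_re.tendsto _).comp (h1.inner tendsto_const_nhds)
  have h3 : ∀ n : ℕ, (⟪((t / ((n + 1 : ℕ) : ℝ))⁻¹ : ℝ) •
      (y - φ (t / ((n + 1 : ℕ) : ℝ)) y), φ t y⟫_ℂ).re ≤ ‖y‖ ^ 2 / t := by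
    intro n
    have h4 := semigroup_ineq_aux φ h0 hadd hsa y t ht (n + 1) (Nat.succ_pos n)
    have e : ((t / ((n + 1 : ℕ) : ℝ))⁻¹ : ℝ) • (y - φ (t / ((n + 1 : ℕ) : ℝ)) y)
        = (((t / ((n + 1 : ℕ) : ℝ))⁻¹ : ℝ) : ℂ) • (y - φ (t / ((n + 1 : ℕ) : ℝ)) y) :=
      (Complex.coe_smul _ _).symm
    rw [e, inner_smul_left, Complex.conj_ofReal, Complex.re_ofReal_mul]
    have h5 : (t / ((n + 1 : ℕ) : ℝ))⁻¹ = ((n + 1 : ℕ) : ℝ) / t := inv_div _ _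
    rw [h5, div_mul_eq_mul_div]
    exact div_le_div_of_nonneg_right (by linarith) ht.le
  have h6 : (⟪w, φ t y⟫_ℂ).re ≤ ‖y‖ ^ 2 / t := le_of_tendsto' h2 h3
  have h7 : (⟪w, y⟫_ℂ).re = (⟪w, φ t y⟫_ℂ).re + (⟪w, y - φ t y⟫_ℂ).re := by
    rw [inner_sub_right, Complex.sub_re]; ring
  have h8 : (⟪w, y - φ t y⟫_ℂ).re ≤ ‖w‖ * ‖y - φ t y‖ :=
    (Complex.re_le_norm _).trans (norm_inner_le_norm _ _)
  linarith

end Semigroup

section Cayley

variable {H : Type u} [NormedAddCommGroup H] [InnerProductSpace ℂ H] [CompleteSpace H]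

/-- `g = (A - z)⁻¹` and `u = (A - z̄)(A - z)⁻¹`. -/
structure IsCayley (A : H →L[ℂ] H) (z : ℂ) (g u : H →L[ℂ] H) : Prop where
  left : (A - z • 1) * g = 1
  right : g * (A - z • 1) = 1
  u_eq : u = 1 + (z - starRingEnd ℂ z) • g

lemma exists_cayley (A : H →L[ℂ] H) (z : ℂ) (hz : ‖A‖ < ‖z‖) : ∃ g u, IsCayley A z g u := by
  have hz0 : 0 < ‖z‖ := (norm_nonneg A).trans_lt hz
  have hz' : z ≠ 0 := norm_pos_iff.mp hz0
  have h1 : ‖z⁻¹ • A‖ < 1 := by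
    rw [norm_smul, norm_inv, inv_mul_lt_iff₀ hz0, mul_one]; exact hz
  obtain ⟨w, hw⟩ : IsUnit (1 - z⁻¹ • A) := ⟨Units.oneSub _ h1, rfl⟩
  have h2 : A - z • 1 = (-z) • (w : H →L[ℂ] H) := by
    rw [hw, smul_sub, neg_smul, neg_smul, smul_smul, mul_inv_cancel₀ hz', one_smul]; abel
  refine ⟨(-z)⁻¹ • (↑w⁻¹ : H →L[ℂ] H), _, ?_, ?_, rfl⟩
  · rw [h2, smul_mul_smul_comm, Units.mul_inv, mul_inv_cancel₀ (neg_ne_zero.mpr hz'), one_smul]
  · rw [h2, smul_mul_smul_comm, Units.inv_mul, inv_mul_cancel₀ (neg_ne_zero.mpr hz'), one_smul]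

lemma IsCayley.comm {A : H →L[ℂ] H} {z : ℂ} {g u : H →L[ℂ] H} (h : IsCayley A z g u)
    {T : H →L[ℂ] H} (hT : T * A = A * T) : T * g = g * T := by
  have h1 : T * (A - z • 1) = (A - z • 1) * T := by
    rw [mul_sub, sub_mul, hT]; simp
  calc T * g = (g * (A - z • 1)) * (T * g) := by rw [h.right, one_mul]
    _ = g * ((A - z • 1) * T) * g := by noncomm_ring
    _ = g * (T * (A - z • 1)) * g := by rw [h1]
    _ = g * T * ((A - z • 1) * g) := by noncomm_ring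
    _ = g * T := by rw [h.left, mul_one]

lemma IsCayley.comm_u {A : H →L[ℂ] H} {z : ℂ} {g u : H →L[ℂ] H} (h : IsCayley A z g u)
    {T : H →L[ℂ] H} (hT : T * A = A * T) : T * u = u * T := by
  rw [h.u_eq, mul_add, add_mul, mul_smul_comm, smul_mul_assoc, h.comm hT, mul_one, one_mul]

lemma IsCayley.u_mul {A : H →L[ℂ] H} {z : ℂ} {g u : H →L[ℂ] H} (h : IsCayley A z g u) :
    u = (A - (starRingEnd ℂ z) • 1) * g := by
  have : (A - (starRingEnd ℂ z) • 1) = (A - z • 1) + (z - starRingEnd ℂ z) • (1 : H →L[ℂ] H) := by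
    rw [sub_smul]; abel
  rw [this, add_mul, h.left, smul_mul_assoc, one_mul, h.u_eq]

lemma IsCayley.star_mul_self {A : H →L[ℂ] H} (hA : IsSelfAdjoint A) {z : ℂ} {g u : H →L[ℂ] H}
    (h : IsCayley A z g u) : star u * u = 1 := by
  have h1 : star u = star g * (A - z • 1) := by
    rw [h.u_mul, star_mul, star_sub, hA.star_eq, star_smul, star_one]
    simp
  have h2 : star g * (A - (starRingEnd ℂ z) • 1) = 1 := by
    have := congrArg star h.left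
    rw [star_mul, star_sub, hA.star_eq, star_smul, star_one] at this
    simpa using this
  have h3 : (A - z • 1) * (A - (starRingEnd ℂ z) • 1) = (A - (starRingEnd ℂ z) • 1) * (A - z • 1) := by
    simp only [mul_sub, sub_mul, smul_mul_assoc, mul_smul_comm, one_mul, mul_one, smul_sub]
    rw [smul_comm z]
    abel
  rw [h1]
  conv_lhs => rw [h.u_mul]
  calc star g * (A - z • 1) * ((A - (starRingEnd ℂ z) • 1) * g)
      = star g * ((A - z • 1) * (A - (starRingEnd ℂ z) • 1)) * g := by noncomm_ring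
    _ = star g * ((A - (starRingEnd ℂ z) • 1) * (A - z • 1)) * g := by rw [h3]
    _ = (star g * (A - (starRingEnd ℂ z) • 1)) * ((A - z • 1) * g) := by noncomm_ring
    _ = 1 := by rw [h2, h.left, one_mul]

lemma IsCayley.inner_u {A : H →L[ℂ] H} (hA : IsSelfAdjoint A) {z : ℂ} {g u : H →L[ℂ] H}
    (h : IsCayley A z g u) (ξ η : H) : ⟪u ξ, u η⟫_ℂ = ⟪ξ, η⟫_ℂ := by
  rw [← inner_star_right, ← mul_apply_eq_comp, h.star_mul_self hA, one_apply_eq_self]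

lemma IsCayley.inner_u_pow {A : H →L[ℂ] H} (hA : IsSelfAdjoint A) {z : ℂ} {g u : H →L[ℂ] H}
    (h : IsCayley A z g u) (n : ℕ) (ξ η : H) : ⟪(u ^ n) ξ, (u ^ n) η⟫_ℂ = ⟪ξ, η⟫_ℂ := by
  induction n with
  | zero => simp
  | succ n ih => rw [pow_succ', mul_apply_eq_comp, mul_apply_eq_comp, h.inner_u hA, ih]

lemma IsCayley.norm_u_pow {A : H →L[ℂ] H} (hA : IsSelfAdjoint A) {z : ℂ} {g u : H →L[ℂ] H}
    (h : IsCayley A z g u) (n : ℕ) (ξ : H) : ‖(u ^ n) ξ‖ = ‖ξ‖ := by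
  have h1 := h.inner_u_pow hA n ξ ξ
  rw [inner_self_eq_norm_sq_to_K, inner_self_eq_norm_sq_to_K] at h1
  have h2 : ‖(u ^ n) ξ‖ ^ 2 = ‖ξ‖ ^ 2 := by exact_mod_cast h1
  exact (pow_left_inj₀ (norm_nonneg _) (norm_nonneg _) two_ne_zero).mp h2

lemma IsCayley.opNorm_u_pow_le {A : H →L[ℂ] H} (hA : IsSelfAdjoint A) {z : ℂ} {g u : H →L[ℂ] H}
    (h : IsCayley A z g u) (n : ℕ) : ‖u ^ n‖ ≤ 1 :=
  ContinuousLinearMap.opNorm_le_bound _ zero_le_one fun ξ => by rw [h.norm_u_pow hA, one_mul]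

lemma IsCayley.inner_pow_pow {A : H →L[ℂ] H} (hA : IsSelfAdjoint A) {z : ℂ} {g u : H →L[ℂ] H}
    (h : IsCayley A z g u) (ξ : H) {a b a' b' : ℕ} (hab : a + b' = a' + b) :
    ⟪(u ^ a) ξ, (u ^ b) ξ⟫_ℂ = ⟪(u ^ a') ξ, (u ^ b') ξ⟫_ℂ := by
  rw [← h.inner_u_pow hA b' ((u ^ a) ξ), ← h.inner_u_pow hA b ((u ^ a') ξ)]
  have e : ∀ c d : ℕ, (u ^ c) ((u ^ d) ξ) = (u ^ (c + d)) ξ := fun c d => by
    rw [← mul_apply_eq_comp, ← pow_add]
  rw [e, e, e, e]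
  have h1 : b' + a = b + a' := by omega
  have h2 : b' + b = b + b' := by omega
  rw [h1, h2]

/-- the vector `∑ u^k g Ω ⊗ g u^{n-1-k} Ω`. -/
noncomputable def Svec (g u : H →L[ℂ] H) (Ω : H) (n : ℕ) : H ⊗[ℂ] H :=
  ∑ k ∈ Finset.range n, ((u ^ k) (g Ω)) ⊗ₜ[ℂ] (g ((u ^ (n - 1 - k)) Ω))

lemma le_norm_Svec_sq {A : H →L[ℂ] H} (hA : IsSelfAdjoint A) {z : ℂ} {g u : H →L[ℂ] H}
    (h : IsCayley A z g u) (Ω : H) (n : ℕ) :
    n * ‖g Ω‖ ^ 4 ≤ ‖Svec g u Ω n‖ ^ 2 := by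
  have hcomm : ∀ k : ℕ, u ^ k * g = g * u ^ k := by
    intro k
    have h1 : u * g = g * u := by
      have : g * A = A * g := (h.comm (T := A) rfl).symm
      exact (h.comm_u this).symm
    exact (Commute.pow_left h1 k).eq
  set ξ := g Ω with hξ
  have hS : Svec g u Ω n = ∑ k ∈ Finset.range n, ((u ^ k) ξ) ⊗ₜ[ℂ] ((u ^ (n - 1 - k)) ξ) := by
    rw [Svec]
    refine Finset.sum_congr rfl fun k _ => ?_
    rw [← mul_apply_eq_comp g, ← hcomm, mul_apply_eq_comp]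
  have h1 : (‖Svec g u Ω n‖ ^ 2 : ℝ) = ∑ k ∈ Finset.range n, ∑ l ∈ Finset.range n,
      ‖⟪(u ^ k) ξ, (u ^ l) ξ⟫_ℂ‖ ^ 2 := by
    have h2 : ((‖Svec g u Ω n‖ ^ 2 : ℝ) : ℂ) = ⟪Svec g u Ω n, Svec g u Ω n⟫_ℂ := by
      have h2' : ⟪Svec g u Ω n, Svec g u Ω n⟫_ℂ = ((‖Svec g u Ω n‖ : ℝ) : ℂ) ^ 2 :=
        inner_self_eq_norm_sq_to_K (𝕜 := ℂ) (Svec g u Ω n)
      rw [h2', Complex.ofReal_pow]
    have h3 : ⟪Svec g u Ω n, Svec g u Ω n⟫_ℂ = ((∑ k ∈ Finset.range n, ∑ l ∈ Finset.range n,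
      ‖⟪(u ^ k) ξ, (u ^ l) ξ⟫_ℂ‖ ^ 2 : ℝ) : ℂ) := by
      rw [hS, sum_inner]
      simp only [Complex.ofReal_sum, Complex.ofReal_pow]
      refine Finset.sum_congr rfl fun k hk => ?_
      rw [inner_sum]
      refine Finset.sum_congr rfl fun l hl => ?_
      have hk' : k < n := Finset.mem_range.mp hk
      have hl' : l < n := Finset.mem_range.mp hl
      rw [TensorProduct.inner_tmul]
      have e1 : ⟪(u ^ (n - 1 - k)) ξ, (u ^ (n - 1 - l)) ξ⟫_ℂ = ⟪(u ^ l) ξ, (u ^ k) ξ⟫_ℂ :=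
        h.inner_pow_pow hA ξ (by omega)
      rw [e1, ← inner_conj_symm ((u ^ l) ξ) ((u ^ k) ξ), Complex.mul_conj, Complex.normSq_eq_norm_sq,
        Complex.ofReal_pow]
    exact_mod_cast h2.trans h3
  rw [h1]
  have h4 : ∀ k ∈ Finset.range n, ‖g Ω‖ ^ 4 ≤ ∑ l ∈ Finset.range n, ‖⟪(u ^ k) ξ, (u ^ l) ξ⟫_ℂ‖ ^ 2 := by
    intro k hk
    have h5 : ‖⟪(u ^ k) ξ, (u ^ k) ξ⟫_ℂ‖ ^ 2 = ‖g Ω‖ ^ 4 := by
      rw [h.inner_u_pow hA, inner_self_eq_norm_sq_to_K, norm_pow]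
      simp [hξ]
      ring
    rw [← h5]
    exact Finset.single_le_sum (f := fun l => ‖⟪(u ^ k) ξ, (u ^ l) ξ⟫_ℂ‖ ^ 2)
      (fun l _ => by positivity) hk
  calc (n : ℝ) * ‖g Ω‖ ^ 4 = ∑ k ∈ Finset.range n, ‖g Ω‖ ^ 4 := by
        rw [Finset.sum_const, Finset.card_range, nsmul_eq_mul]
    _ ≤ _ := Finset.sum_le_sum h4

lemma tendsto_Gpoly {A : H →L[ℂ] H} {z : ℂ} (hz : ‖A‖ < ‖z‖) {g u : H →L[ℂ] H}
    (h : IsCayley A z g u) :
    Tendsto (fun N => Polynomial.aeval A (Gpoly z N)) atTop (𝓝 g) := by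
  have hz0 : 0 < ‖z‖ := (norm_nonneg A).trans_lt hz
  have hz' : z ≠ 0 := norm_pos_iff.mp hz0
  have h1 : ∀ N, Polynomial.aeval A (Gpoly z N) = g - g * ((z⁻¹ • A) ^ (N + 1)) := by
    intro N
    have h2 := congrArg (Polynomial.aeval A) (X_sub_mul_Gpoly z hz' N)
    rw [map_mul, map_sub, map_sub, map_one, map_smul, map_pow, Polynomial.aeval_X,
      Polynomial.aeval_C, Algebra.algebraMap_eq_smul_one] at h2
    calc Polynomial.aeval A (Gpoly z N)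
        = g * ((A - z • 1) * Polynomial.aeval A (Gpoly z N)) := by
          rw [← mul_assoc, h.right, one_mul]
      _ = _ := by rw [h2, mul_sub, mul_one, smul_pow]
  have h3 : Tendsto (fun N : ℕ => (z⁻¹ • A) ^ (N + 1)) atTop (𝓝 0) := by
    have h4 : ‖z⁻¹ • A‖ < 1 := by
      rw [norm_smul, norm_inv, inv_mul_lt_iff₀ hz0, mul_one]; exact hz
    exact (tendsto_pow_atTop_nhds_zero_of_norm_lt_one h4).comp (tendsto_add_atTop_nat 1)
  have h5 : Tendsto (fun N : ℕ => g - g * (z⁻¹ • A) ^ (N + 1)) atTop (𝓝 (g - g * 0)) :=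
    tendsto_const_nhds.sub (tendsto_const_nhds.mul h3)
  rw [mul_zero, sub_zero] at h5
  exact h5.congr fun N => (h1 N).symm

lemma tendsto_Upoly {A : H →L[ℂ] H} {z : ℂ} (hz : ‖A‖ < ‖z‖) {g u : H →L[ℂ] H}
    (h : IsCayley A z g u) :
    Tendsto (fun N => Polynomial.aeval A (Upoly z N)) atTop (𝓝 u) := by
  have h1 : ∀ N, Polynomial.aeval A (Upoly z N)
      = 1 + (z - starRingEnd ℂ z) • Polynomial.aeval A (Gpoly z N) := by
    intro N; rw [Upoly, map_add, map_one, map_smul]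
  rw [h.u_eq]
  exact (tendsto_const_nhds.add (tendsto_const_nhds.smul (tendsto_Gpoly hz h))).congr
    fun N => (h1 N).symm

lemma tendsto_delta {A : H →L[ℂ] H} {z : ℂ} (hz : ‖A‖ < ‖z‖) {g u : H →L[ℂ] H}
    (h : IsCayley A z g u) : Tendsto (fun N => delta A z N) atTop (𝓝 0) := by
  have hz0 : 0 < ‖z‖ := (norm_nonneg A).trans_lt hz
  set ρ := ‖z‖⁻¹ * ‖A‖ with hρdef
  have hρ : |ρ| < 1 := by
    rw [abs_of_nonneg (by positivity), hρdef, inv_mul_lt_iff₀ hz0, mul_one]; exact hz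
  have h1 : Tendsto (fun n : ℕ => ((n : ℝ)) ^ 2 * ρ ^ n) atTop (𝓝 0) :=
    tendsto_pow_const_mul_const_pow_of_abs_lt_one 2 hρ
  have h1' := h1.comp (tendsto_add_atTop_nat 1)
  have h2 : Tendsto (fun n : ℕ => ((n : ℝ)) ^ 1 * ρ ^ n) atTop (𝓝 0) :=
    tendsto_pow_const_mul_const_pow_of_abs_lt_one 1 hρ
  have h2' : Tendsto (fun n : ℕ => ρ ^ n) atTop (𝓝 0) :=
    tendsto_pow_atTop_nhds_zero_of_abs_lt_one hρ
  have h3 := (tendsto_Gpoly hz h).norm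
  have h4 : Tendsto (fun N : ℕ => (((N + 1 : ℕ) : ℝ) ^ 2 * ρ ^ (N + 1)) * ‖z‖⁻¹ ^ 2
      + ‖Polynomial.aeval A (Gpoly z N)‖ * (‖z‖⁻¹ * ((N : ℝ) ^ 1 * ρ ^ N + ρ ^ N))) atTop
      (𝓝 (0 * ‖z‖⁻¹ ^ 2 + ‖g‖ * (‖z‖⁻¹ * (0 + 0)))) :=
    (h1'.mul_const _).add (h3.mul ((h2.add h2').const_mul _))
  simp only [add_zero, mul_zero, zero_mul] at h4
  refine h4.congr fun N => ?_
  rw [delta]
  push_cast
  ring

end Cayley

section Proof

variable {H : Type u} [NormedAddCommGroup H] [InnerProductSpace ℂ H] [CompleteSpace H]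

lemma Adj₀.graphAdjoint {m : ℕ} {x : Fin m → H →L[ℂ] H} {Ω : H} {i : Fin m} {ζ : H ⊗[ℂ] H} {η : H}
    (h : Adj₀ x Ω i ζ η) : GraphAdjoint x Ω i (ζ : UniformSpace.Completion (H ⊗[ℂ] H)) η := by
  intro P
  rw [dvec, UniformSpace.Completion.inner_coe]
  exact h P

lemma GraphAdjoint.adj₀ {m : ℕ} {x : Fin m → H →L[ℂ] H} {Ω : H} {i : Fin m} {ζ : H ⊗[ℂ] H} {η : H}
    (h : GraphAdjoint x Ω i (ζ : UniformSpace.Completion (H ⊗[ℂ] H)) η) : Adj₀ x Ω i ζ η := by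
  intro P
  have := h P
  rw [dvec, UniformSpace.Completion.inner_coe] at this
  exact this

/-- `p ↦ p(A) Ω`. -/
noncomputable def va (A : H →L[ℂ] H) (Ω : H) : ℂ[X] →ₗ[ℂ] H :=
  (ContinuousLinearMap.apply ℂ H Ω).toLinearMap ∘ₗ (Polynomial.aeval A).toLinearMap

lemma va_apply (A : H →L[ℂ] H) (Ω : H) (p : ℂ[X]) : va A Ω p = Polynomial.aeval A p Ω := rfl

/-- the bilinear map `(p, q) ↦ p(A)Ω ⊗ q(A)Ω`. -/
noncomputable def βT (A : H →L[ℂ] H) (Ω : H) : ℂ[X] →ₗ[ℂ] ℂ[X] →ₗ[ℂ] H ⊗[ℂ] H :=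
  (TensorProduct.mk ℂ H H).compl₁₂ (va A Ω) (va A Ω)

lemma βT_apply (A : H →L[ℂ] H) (Ω : H) (p q : ℂ[X]) :
    βT A Ω p q = (Polynomial.aeval A p Ω) ⊗ₜ[ℂ] (Polynomial.aeval A q Ω) := rfl

lemma norm_βT_le (A : H →L[ℂ] H) (Ω : H) (hΩ : ‖Ω‖ = 1) (p q : ℂ[X]) :
    ‖βT A Ω p q‖ ≤ 1 * (‖Polynomial.aeval A p‖ * ‖Polynomial.aeval A q‖) := by
  have h : ∀ p : ℂ[X], ‖Polynomial.aeval A p Ω‖ ≤ ‖Polynomial.aeval A p‖ := fun p => by
    simpa [hΩ] using (Polynomial.aeval A p).le_opNorm Ω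
  rw [βT_apply, TensorProduct.norm_tmul, one_mul]
  exact mul_le_mul (h p) (h q) (norm_nonneg _) (norm_nonneg _)

lemma vec_aeval {m : ℕ} (x : Fin m → H →L[ℂ] H) (Ω : H) (i : Fin m) (p : ℂ[X]) :
    vec x Ω (Polynomial.aeval (FreeAlgebra.ι ℂ i) p) = Polynomial.aeval (x i) p Ω := by
  rw [vec_apply, ← Polynomial.aeval_algHom_apply, ev_ι]

lemma dvec₀_aeval {m : ℕ} (x : Fin m → H →L[ℂ] H) (Ω : H) (i : Fin m) (p : ℂ[X]) :
    dvec₀ x Ω i (Polynomial.aeval (FreeAlgebra.ι ℂ i) p)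
      = TensorProduct.lift (βT (x i) Ω) (dq p) := by
  rw [dvec₀, LinearMap.comp_apply, fdq_aeval]
  generalize dq p = ζ
  induction ζ using TensorProduct.induction_on with
  | zero => simp
  | tmul a b => simp [βT_apply, vec_aeval]
  | add a b ha hb => rw [map_add, map_add, map_add, ha, hb]

lemma adj₀_lift {N : VonNeumannAlgebra H} {Ω : H} (hN : IsStandardForm N Ω) {m : ℕ}
    {x : Fin m → H →L[ℂ] H} (hxN : ∀ j, x j ∈ N) {i : Fin m} {R : H →L[ℂ] H}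
    (h : IsRight N Ω (x i) R) {J : H} (hJ : Adj₀ x Ω i (Ω ⊗ₜ Ω) J) (ζ : ℂ[X] ⊗[ℂ] ℂ[X]) :
    Adj₀ x Ω i (TensorProduct.lift (βT (x i) Ω) ζ) (TensorProduct.lift (D2 (x i) R Ω J) ζ) := by
  intro Q
  induction ζ using TensorProduct.induction_on with
  | zero => simp
  | tmul p q =>
    rw [TensorProduct.lift.tmul, TensorProduct.lift.tmul, βT_apply]
    exact adj₀_D2 hN hxN h hJ p q Q
  | add a b ha hb => rw [map_add, map_add, inner_add_right, inner_add_right, ha, hb]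

lemma main_ineq {N : VonNeumannAlgebra H} {Ω : H} (hN : IsStandardForm N Ω) {m : ℕ}
    {x : Fin m → H →L[ℂ] H} (hxN : ∀ j, x j ∈ N) {i : Fin m} {R : H →L[ℂ] H}
    (h : IsRight N Ω (x i) R) {J : H} (hJ : Adj₀ x Ω i (Ω ⊗ₜ Ω) J)
    {φ : ℝ → H →L[ℂ] H} (hφ : IsHeatSemigroup x Ω φ) (t : ℝ) (ht : 0 < t) (p : ℂ[X]) :
    ‖TensorProduct.lift (βT (x i) Ω) (dq p)‖ ^ 2
      ≤ ‖TensorProduct.lift (D2 (x i) R Ω J) (dq p)‖
        * ‖Polynomial.aeval (x i) p Ω - φ t (Polynomial.aeval (x i) p Ω)‖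
        + ‖Polynomial.aeval (x i) p Ω‖ ^ 2 / t := by
  set P : NCPoly m := Polynomial.aeval (FreeAlgebra.ι ℂ i) p with hP
  have hadj := adj₀_lift hN hxN h hJ (dq p)
  rw [← dvec₀_aeval] at hadj
  have hlap : GraphLaplacian x Ω (vec x Ω P) (TensorProduct.lift (D2 (x i) R Ω J) (dq p)) := by
    classical
    refine ⟨fun j => dvec x Ω j P,
      fun j => if j = i then TensorProduct.lift (D2 (x i) R Ω J) (dq p) else 0, ?_, ?_, ?_⟩
    · intro j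
      exact subset_closure ⟨P, rfl⟩
    · intro j
      by_cases hj : j = i
      · subst hj
        simp only [if_true]
        exact hadj.graphAdjoint
      · simp only [if_neg hj]
        intro Q
        have h0 : dvec₀ x Ω j P = 0 := by
          rw [dvec₀, LinearMap.comp_apply, hP, fdq_aeval_ne i j hj, map_zero]
        rw [dvec, dvec, h0, inner_zero_right, UniformSpace.Completion.inner_coe, inner_zero_right]
    · simp
  have hgen := hφ.generator P _ hlap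
  have hineq := semigroup_ineq φ hφ.zero hφ.add hφ.selfAdjoint _ _ hgen t ht
  have hnorm : (⟪TensorProduct.lift (D2 (x i) R Ω J) (dq p), vec x Ω P⟫_ℂ).re
      = ‖TensorProduct.lift (βT (x i) Ω) (dq p)‖ ^ 2 := by
    have h1 := hadj P
    rw [dvec₀_aeval] at h1
    have h2 : ⟪TensorProduct.lift (βT (x i) Ω) (dq p), TensorProduct.lift (βT (x i) Ω) (dq p)⟫_ℂ
        = ((‖TensorProduct.lift (βT (x i) Ω) (dq p)‖ : ℝ) : ℂ) ^ 2 :=
      inner_self_eq_norm_sq_to_K (𝕜 := ℂ) (TensorProduct.lift (βT (x i) Ω) (dq p))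
    rw [← inner_conj_symm, Complex.conj_re, ← h1, h2, ← Complex.ofReal_pow, Complex.ofReal_re]
  rw [hnorm, hP, vec_aeval] at hineq
  exact hineq

lemma lift_D2_le {N : VonNeumannAlgebra H} {Ω : H} (hN : IsStandardForm N Ω)
    {A R : H →L[ℂ] H} (h : IsRight N Ω A R) (J : H)
    (hort : ∀ p, ⟪Ω, D1 A Ω J p⟫_ℂ = 0) {z : ℂ} (hz : ‖A‖ < ‖z‖) (M n : ℕ) :
    ‖TensorProduct.lift (D2 A R Ω J) (dq (Upoly z M ^ n))‖
      ≤ 3 * ‖J‖ * (‖z - starRingEnd ℂ z‖ * (n * (‖Polynomial.aeval A (Upoly z M)‖ ^ (n - 1)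
          * delta A z M))
        + ‖z - starRingEnd ℂ z‖ * (n * (‖Polynomial.aeval A (Upoly z M)‖ ^ (n - 1)
          * ‖Polynomial.aeval A (Gpoly z M)‖ ^ 2))) := by
  have h1 := PB_dq_Upoly_pow A z hz M n
  have h2 : PB A ((z - starRingEnd ℂ z) • ∑ k ∈ Finset.range n,
        (Upoly z M ^ k * Gpoly z M) ⊗ₜ[ℂ] (Gpoly z M * Upoly z M ^ (n - 1 - k)))
      (‖z - starRingEnd ℂ z‖ * (n * (‖Polynomial.aeval A (Upoly z M)‖ ^ (n - 1)
          * ‖Polynomial.aeval A (Gpoly z M)‖ ^ 2))) := by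
    refine (PB.smul _ (PB.sum _ _ (fun _ => ‖Polynomial.aeval A (Upoly z M)‖ ^ (n - 1)
      * ‖Polynomial.aeval A (Gpoly z M)‖ ^ 2) fun k hk => ?_)).mono (le_of_eq ?_)
    · have hk' : k < n := Finset.mem_range.mp hk
      refine (PB.tmul A _ _).mono ?_
      rw [map_mul, map_mul]
      calc ‖Polynomial.aeval A (Upoly z M ^ k) * Polynomial.aeval A (Gpoly z M)‖
            * ‖Polynomial.aeval A (Gpoly z M) * Polynomial.aeval A (Upoly z M ^ (n - 1 - k))‖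
          ≤ (‖Polynomial.aeval A (Upoly z M)‖ ^ k * ‖Polynomial.aeval A (Gpoly z M)‖)
            * (‖Polynomial.aeval A (Gpoly z M)‖ * ‖Polynomial.aeval A (Upoly z M)‖ ^ (n - 1 - k)) := by
            gcongr
            · exact (norm_mul_le _ _).trans (by gcongr; exact norm_aeval_pow_le _ _ _)
            · exact (norm_mul_le _ _).trans (by gcongr; exact norm_aeval_pow_le _ _ _)
        _ = ‖Polynomial.aeval A (Upoly z M)‖ ^ (k + (n - 1 - k))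
            * ‖Polynomial.aeval A (Gpoly z M)‖ ^ 2 := by rw [pow_add]; ring
        _ = _ := by congr 2; omega
    · rw [Finset.sum_const, Finset.card_range, nsmul_eq_mul]
  have h3 := (h1.sub h2) H (D2 A R Ω J) (3 * ‖J‖) (by positivity) (norm_D2_le hN h J hort)
  rw [add_sub_cancel_right] at h3
  exact h3

lemma tendsto_lift_βT {Ω : H} (hΩ : ‖Ω‖ = 1)
    {A : H →L[ℂ] H} {z : ℂ} (hz : ‖A‖ < ‖z‖) {g u : H →L[ℂ] H} (hc : IsCayley A z g u) (n : ℕ) :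
    Tendsto (fun M => TensorProduct.lift (βT A Ω) (dq (Upoly z M ^ n))) atTop
      (𝓝 (-((z - starRingEnd ℂ z) • Svec g u Ω n))) := by
  have hU := tendsto_Upoly hz hc
  have hG := tendsto_Gpoly hz hc
  have hδ := tendsto_delta hz hc
  have h1 : Tendsto (fun M => TensorProduct.lift (βT A Ω) (dq (Upoly z M ^ n)
      + (z - starRingEnd ℂ z) • ∑ k ∈ Finset.range n,
        (Upoly z M ^ k * Gpoly z M) ⊗ₜ[ℂ] (Gpoly z M * Upoly z M ^ (n - 1 - k)))) atTop (𝓝 0) := by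
    have h2 : Tendsto (fun M => 1 * (‖z - starRingEnd ℂ z‖ * (n *
        (‖Polynomial.aeval A (Upoly z M)‖ ^ (n - 1) * delta A z M)))) atTop
        (𝓝 (1 * (‖z - starRingEnd ℂ z‖ * (n * (‖u‖ ^ (n - 1) * 0))))) :=
      (((hU.norm.pow (n - 1)).mul hδ).const_mul (n : ℝ)).const_mul _ |>.const_mul 1
    simp only [mul_zero] at h2
    refine squeeze_zero_norm (fun M => ?_) h2
    exact PB_dq_Upoly_pow A z hz M n (H ⊗[ℂ] H) (βT A Ω) 1 zero_le_one (norm_βT_le A Ω hΩ)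
  have h3 : Tendsto (fun M => ∑ k ∈ Finset.range n,
      (Polynomial.aeval A (Upoly z M ^ k * Gpoly z M) Ω) ⊗ₜ[ℂ]
        (Polynomial.aeval A (Gpoly z M * Upoly z M ^ (n - 1 - k)) Ω)) atTop
      (𝓝 (Svec g u Ω n)) := by
    rw [Svec]
    refine tendsto_finsetSum _ fun k _ => ?_
    have e1 : Tendsto (fun M => Polynomial.aeval A (Upoly z M ^ k * Gpoly z M) Ω) atTop
        (𝓝 ((u ^ k) (g Ω))) := by
      have : Tendsto (fun M => Polynomial.aeval A (Upoly z M) ^ k * Polynomial.aeval A (Gpoly z M))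
        atTop (𝓝 (u ^ k * g)) := (hU.pow k).mul hG
      have := ((ContinuousLinearMap.apply ℂ H Ω).continuous.tendsto _).comp this
      refine this.congr fun M => ?_
      simp only [Function.comp, map_mul, map_pow]
      rfl
    have e2 : Tendsto (fun M => Polynomial.aeval A (Gpoly z M * Upoly z M ^ (n - 1 - k)) Ω) atTop
        (𝓝 (g ((u ^ (n - 1 - k)) Ω))) := by
      have : Tendsto (fun M => Polynomial.aeval A (Gpoly z M)
          * Polynomial.aeval A (Upoly z M) ^ (n - 1 - k))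
        atTop (𝓝 (g * u ^ (n - 1 - k))) := hG.mul (hU.pow _)
      have := ((ContinuousLinearMap.apply ℂ H Ω).continuous.tendsto _).comp this
      refine this.congr fun M => ?_
      simp only [Function.comp, map_mul, map_pow]
      rfl
    exact (TensorProduct.continuous_tmul (𝕜 := ℂ) (E := H) (F := H)).continuousAt.tendsto.comp
      (e1.prodMk_nhds e2)
  have h4 := h1.sub (h3.const_smul (z - starRingEnd ℂ z))
  rw [zero_sub] at h4
  refine h4.congr fun M => ?_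
  rw [map_add, map_smul, map_sum]
  have : ∀ k, TensorProduct.lift (βT A Ω)
      ((Upoly z M ^ k * Gpoly z M) ⊗ₜ[ℂ] (Gpoly z M * Upoly z M ^ (n - 1 - k)))
      = (Polynomial.aeval A (Upoly z M ^ k * Gpoly z M) Ω) ⊗ₜ[ℂ]
        (Polynomial.aeval A (Gpoly z M * Upoly z M ^ (n - 1 - k)) Ω) := fun k => by
    rw [TensorProduct.lift.tmul, βT_apply]
  simp only [this]
  exact add_sub_cancel_right _ _

lemma key_ineq {N : VonNeumannAlgebra H} {Ω : H} (hN : IsStandardForm N Ω) {m : ℕ}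
    {x : Fin m → H →L[ℂ] H} (hxN : ∀ j, x j ∈ N) {i : Fin m} {R : H →L[ℂ] H}
    (h : IsRight N Ω (x i) R) {J : H} (hJ : Adj₀ x Ω i (Ω ⊗ₜ Ω) J)
    {φ : ℝ → H →L[ℂ] H} (hφ : IsHeatSemigroup x Ω φ) (t : ℝ) (ht : 0 < t)
    {z : ℂ} (hz : ‖x i‖ < ‖z‖) {g u : H →L[ℂ] H} (hc : IsCayley (x i) z g u) (n : ℕ) :
    ‖z - starRingEnd ℂ z‖ ^ 2 * (n * ‖g Ω‖ ^ 4)
      ≤ 3 * ‖J‖ * (‖z - starRingEnd ℂ z‖ * (n * ‖g‖ ^ 2)) * ‖(u ^ n) Ω - φ t ((u ^ n) Ω)‖
        + 1 / t := by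
  have hΩ := hN.norm_one
  have hU := tendsto_Upoly hz hc
  have hG := tendsto_Gpoly hz hc
  have hδ := tendsto_delta hz hc
  have hort : ∀ p, ⟪Ω, D1 (x i) Ω J p⟫_ℂ = 0 := by
    intro p
    have h1 := adj₀_D2 hN hxN h hJ p 1 1
    have h2 : vec x Ω 1 = Ω := by simp [vec_apply]
    have h3 : dvec₀ x Ω i 1 = 0 := by rw [dvec₀, LinearMap.comp_apply, fdq_one, map_zero]
    rw [D2_one_right, h2, h3] at h1
    rw [← h1]
    simp
  have hUn : Tendsto (fun M => Polynomial.aeval (x i) (Upoly z M ^ n) Ω) atTop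
      (𝓝 ((u ^ n) Ω)) := by
    have := ((ContinuousLinearMap.apply ℂ H Ω).continuous.tendsto _).comp (hU.pow n)
    refine this.congr fun M => ?_
    simp only [Function.comp, map_pow]
    rfl
  -- left side
  have hL : Tendsto (fun M => ‖TensorProduct.lift (βT (x i) Ω) (dq (Upoly z M ^ n))‖ ^ 2) atTop
      (𝓝 (‖-((z - starRingEnd ℂ z) • Svec g u Ω n)‖ ^ 2)) :=
    ((tendsto_lift_βT hΩ hz hc n).norm).pow 2
  -- right side
  have hR : Tendsto (fun M => 3 * ‖J‖ * (‖z - starRingEnd ℂ z‖ *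
        (n * (‖Polynomial.aeval (x i) (Upoly z M)‖ ^ (n - 1) * delta (x i) z M))
        + ‖z - starRingEnd ℂ z‖ * (n * (‖Polynomial.aeval (x i) (Upoly z M)‖ ^ (n - 1)
          * ‖Polynomial.aeval (x i) (Gpoly z M)‖ ^ 2)))
        * ‖Polynomial.aeval (x i) (Upoly z M ^ n) Ω
          - φ t (Polynomial.aeval (x i) (Upoly z M ^ n) Ω)‖
        + ‖Polynomial.aeval (x i) (Upoly z M ^ n) Ω‖ ^ 2 / t) atTop
      (𝓝 (3 * ‖J‖ * (‖z - starRingEnd ℂ z‖ * (n * (‖u‖ ^ (n - 1) * 0))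
        + ‖z - starRingEnd ℂ z‖ * (n * (‖u‖ ^ (n - 1) * ‖g‖ ^ 2)))
        * ‖(u ^ n) Ω - φ t ((u ^ n) Ω)‖ + ‖(u ^ n) Ω‖ ^ 2 / t)) := by
    have a1 := (((hU.norm.pow (n - 1)).mul hδ).const_mul (n : ℝ)).const_mul
      ‖z - starRingEnd ℂ z‖
    have a2 := (((hU.norm.pow (n - 1)).mul (hG.norm.pow 2)).const_mul (n : ℝ)).const_mul
      ‖z - starRingEnd ℂ z‖
    have a3 := ((a1.add a2).const_mul (3 * ‖J‖))
    have a4 : Tendsto (fun M => ‖Polynomial.aeval (x i) (Upoly z M ^ n) Ω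
          - φ t (Polynomial.aeval (x i) (Upoly z M ^ n) Ω)‖) atTop
          (𝓝 (‖(u ^ n) Ω - φ t ((u ^ n) Ω)‖)) :=
      (hUn.sub (((φ t).continuous.tendsto _).comp hUn)).norm
    exact (a3.mul a4).add ((hUn.norm.pow 2).div_const t)
  have hle := le_of_tendsto_of_tendsto' hL hR (fun M => by
    refine (main_ineq hN hxN h hJ hφ t ht (Upoly z M ^ n)).trans ?_
    gcongr
    exact lift_D2_le hN h J hort hz M n)
  rw [norm_neg, norm_smul, mul_pow, hc.norm_u_pow h.sa, hΩ, one_pow, mul_zero, mul_zero, mul_zero,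
    zero_add] at hle
  have hS := le_norm_Svec_sq h.sa hc Ω n
  have hu1 : ‖u‖ ^ (n - 1) ≤ 1 := by
    have : ‖u‖ ≤ 1 := by simpa using hc.opNorm_u_pow_le h.sa 1
    exact pow_le_one₀ (norm_nonneg _) this
  calc ‖z - starRingEnd ℂ z‖ ^ 2 * (n * ‖g Ω‖ ^ 4)
      ≤ ‖z - starRingEnd ℂ z‖ ^ 2 * ‖Svec g u Ω n‖ ^ 2 := by gcongr
    _ ≤ 3 * ‖J‖ * (‖z - starRingEnd ℂ z‖ * (n * (‖u‖ ^ (n - 1) * ‖g‖ ^ 2)))
        * ‖(u ^ n) Ω - φ t ((u ^ n) Ω)‖ + 1 / t := hle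
    _ ≤ 3 * ‖J‖ * (‖z - starRingEnd ℂ z‖ * (n * (1 * ‖g‖ ^ 2)))
        * ‖(u ^ n) Ω - φ t ((u ^ n) Ω)‖ + 1 / t := by gcongr
    _ = _ := by rw [one_mul]

end Proof

/-- The heat semigroup is never close to the identity uniformly on the unit ball. -/
theorem not_uniform {H : Type u} [NormedAddCommGroup H] [InnerProductSpace ℂ H] [CompleteSpace H]
    {m : ℕ} (hm : 1 ≤ m) (x : Fin m → H →L[ℂ] H) (hx : ∀ i, IsSelfAdjoint (x i))
    (N : VonNeumannAlgebra H)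
    (hNx : (N : Set (H →L[ℂ] H)) = Set.centralizer (Set.centralizer (Set.range x)))
    (Ω : H) (hN : IsStandardForm N Ω) (hF : FiniteFreeFisher x Ω)
    (φ : ℝ → H →L[ℂ] H) (hφ : IsHeatSemigroup x Ω φ) :
    (∃ c : ℝ, 0 < c ∧ ∀ t : ℝ, 0 < t → ∃ y ∈ N, ‖y‖ ≤ 1 ∧ c ≤ ‖φ t (y Ω) - y Ω‖) ∧
    ¬ Tendsto (fun t : ℝ => sSup ((fun y : H →L[ℂ] H => ‖φ t (y Ω) - y Ω‖) ''
      {y | y ∈ N ∧ ‖y‖ ≤ 1})) (𝓝[>] 0) (𝓝 0) := by
  have hxN : ∀ j, x j ∈ N := by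
    intro j
    have h1 : x j ∈ Set.centralizer (Set.centralizer (Set.range x)) :=
      Set.subset_centralizer_centralizer ⟨j, rfl⟩
    rw [← hNx] at h1
    exact h1
  let i : Fin m := ⟨0, hm⟩
  obtain ⟨J, hJ⟩ := hF i
  obtain ⟨R, hR⟩ := hN.exists_right (hxN i)
  have hRR : IsRight N Ω (x i) R := ⟨hxN i, hx i, hR⟩
  set z : ℂ := ((‖x i‖ + 1 : ℝ) : ℂ) * Complex.I with hzdef
  have hznorm : ‖z‖ = ‖x i‖ + 1 := by
    rw [hzdef, norm_mul, Complex.norm_I, mul_one, Complex.norm_real, Real.norm_eq_abs,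
      abs_of_nonneg (by positivity)]
  have hz : ‖x i‖ < ‖z‖ := by rw [hznorm]; linarith
  obtain ⟨g, u, hc⟩ := exists_cayley (x i) z hz
  have hzz : 0 < ‖z - starRingEnd ℂ z‖ := by
    rw [norm_pos_iff, Complex.sub_conj]
    have : z.im = ‖x i‖ + 1 := by simp [hzdef]
    rw [this]
    have h0 : (0 : ℝ) < 2 * (‖x i‖ + 1) := by positivity
    exact mul_ne_zero (by exact_mod_cast h0.ne') Complex.I_ne_zero
  have hgΩ : 0 < ‖g Ω‖ := by
    rw [norm_pos_iff]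
    intro h0
    have : Ω = 0 := by
      calc Ω = ((x i - z • 1) * g) Ω := by rw [hc.left]; simp
        _ = 0 := by rw [mul_apply_eq_comp, h0, map_zero]
    have h1 := hN.norm_one
    rw [this, norm_zero] at h1
    exact zero_ne_one h1
  have huN : ∀ n : ℕ, u ^ n ∈ N := by
    intro n
    have hu : u ∈ N := by
      have h1 : u ∈ Set.centralizer (Set.centralizer (Set.range x)) := by
        intro T hT
        have h2 : x i * T = T * x i := hT (x i) ⟨i, rfl⟩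
        exact hc.comm_u h2.symm
      rw [← hNx] at h1
      exact h1
    exact pow_mem hu n
  set c₁ : ℝ := ‖z - starRingEnd ℂ z‖ ^ 2 * ‖g Ω‖ ^ 4 with hc₁
  set C₁ : ℝ := 3 * ‖J‖ * (‖z - starRingEnd ℂ z‖ * ‖g‖ ^ 2) with hC₁
  have hc₁pos : 0 < c₁ := by positivity
  have hC₁nonneg : 0 ≤ C₁ := by positivity
  have hmain : ∃ c : ℝ, 0 < c ∧ ∀ t : ℝ, 0 < t → ∃ y ∈ N, ‖y‖ ≤ 1 ∧ c ≤ ‖φ t (y Ω) - y Ω‖ := by
    refine ⟨c₁ / (2 * (C₁ + 1)), by positivity, fun t ht => ?_⟩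
    obtain ⟨n, hn⟩ := exists_nat_gt (2 / (c₁ * t))
    have hn0 : (0 : ℝ) < n := lt_trans (by positivity) hn
    refine ⟨u ^ n, huN n, hc.opNorm_u_pow_le (hx i) n, ?_⟩
    have hk := key_ineq hN hxN hRR hJ.adj₀ hφ t ht hz hc n
    by_contra hlt
    push Not at hlt
    rw [norm_sub_rev] at hlt
    set s := ‖(u ^ n) Ω - φ t ((u ^ n) Ω)‖ with hs
    have hs0 : 0 ≤ s := norm_nonneg _
    have h1 : n * c₁ ≤ n * (C₁ * s) + 1 / t := by
      calc (n : ℝ) * c₁ = ‖z - starRingEnd ℂ z‖ ^ 2 * (n * ‖g Ω‖ ^ 4) := by rw [hc₁]; ring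
        _ ≤ _ := hk
        _ = n * (C₁ * s) + 1 / t := by rw [hC₁]; ring
    have h2 : C₁ * s ≤ c₁ / 2 := by
      have h3 : C₁ * s ≤ (C₁ + 1) * (c₁ / (2 * (C₁ + 1))) := by
        gcongr
        linarith
      have h4 : (C₁ + 1) * (c₁ / (2 * (C₁ + 1))) = c₁ / 2 := by field_simp
      linarith
    have h5 : (n : ℝ) * c₁ / 2 ≤ 1 / t := by nlinarith
    have h6 : 1 / t < n * c₁ / 2 := by
      rw [div_lt_iff₀ (by positivity)] at hn
      rw [div_lt_iff₀ ht]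
      nlinarith
    linarith
  refine ⟨hmain, fun htend => ?_⟩
  obtain ⟨c, hcpos, hcall⟩ := hmain
  have h1 := htend.eventually (gt_mem_nhds hcpos)
  have h2 : ∀ᶠ t : ℝ in 𝓝[>] 0, 0 < t := eventually_mem_nhdsWithin
  obtain ⟨t, ht1, ht2⟩ := (h1.and h2).exists
  obtain ⟨y, hyN, hy1, hyc⟩ := hcall t ht2
  have hbdd : BddAbove ((fun y : H →L[ℂ] H => ‖φ t (y Ω) - y Ω‖) '' {y | y ∈ N ∧ ‖y‖ ≤ 1}) := by
    refine ⟨‖φ t‖ + 1, ?_⟩
    rintro _ ⟨y, ⟨_, hy⟩, rfl⟩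
    have hyΩ : ‖y Ω‖ ≤ 1 := by
      have := y.le_opNorm Ω
      rw [hN.norm_one, mul_one] at this
      exact this.trans hy
    calc ‖φ t (y Ω) - y Ω‖ ≤ ‖φ t (y Ω)‖ + ‖y Ω‖ := norm_sub_le _ _
      _ ≤ ‖φ t‖ * ‖y Ω‖ + ‖y Ω‖ := by gcongr; exact (φ t).le_opNorm _
      _ ≤ ‖φ t‖ * 1 + 1 := by gcongr
      _ = _ := by ring
  have h3 : ‖φ t (y Ω) - y Ω‖ ≤ sSup ((fun y : H →L[ℂ] H => ‖φ t (y Ω) - y Ω‖) ''
      {y | y ∈ N ∧ ‖y‖ ≤ 1}) := le_csSup hbdd ⟨y, ⟨hyN, hy1⟩, rfl⟩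
  linarith

end Pool.Agent.FreeHeat
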